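import Pool.Agent.MP_57f271_lc.H26.Dual

/-!
A nonzero nonunit of the local ring of a component needs many parameters for its jets.
-/

set_option autoImplicit false

namespace Pool.Agent.MP_57f271_lc.H26

open MvPolynomial Finset TrivSqZeroExt

/-- The free coefficients: those of `P`, and one block for each group. -/
abbrev Vr (j v : ℕ) (Γ : Type) : Type := (Fin j → Fin v) ⊕ Γ × Option (Fin j × Fin v)

abbrev AA (j v : ℕ) (Γ : Type) : Type := MvPolynomial (Vr j v Γ) ℂ

variable {j v : ℕ} {Γ : Type} [Fintype Γ]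

noncomputable def zz (x : Option (Fin j × Fin v)) : AA j v Γ := ∑ g, X (.inr (g, x))

noncomputable def ff (j v : ℕ) (Γ : Type) [Fintype Γ] : AA j v Γ :=
  zz none - ∑ α : Fin j → Fin v, X (.inl α) * ∏ b, zz (some (b, α b))

open Classical in
noncomputable def sb (g : Γ) (u : Vr j v Γ) : AA j v Γ :=
  X u - if u = .inr (g, none) then ff j v Γ else 0

noncomputable def rho (j v : ℕ) (g : Γ) : AA j v Γ →+* AA j v Γ := eval₂Hom C (sb g)

noncomputable def MM (j v : ℕ) (g : Γ) : Submonoid (AA j v Γ) :=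
  (nonZeroDivisors (AA j v Γ)).comap (rho j v g)

abbrev OO (j v : ℕ) (g : Γ) : Type := Localization (MM j v g)

theorem rho_f (g : Γ) : rho j v g (ff j v Γ) = 0 := by
  classical
  have h1 : ∀ q, rho j v g (zz (some q)) = zz (some q) := fun q => by simp [rho, zz, sb]
  have h2 : rho j v g (zz none) = zz none - ff j v Γ := by simp [rho, zz, sb]
  have h3 : ∀ α, rho j v g (X (.inl α)) = X (.inl α) := fun q => by simp [rho, sb]
  conv_lhs => rw [ff]
  simp only [map_sub, map_sum, map_mul, map_prod, h1, h2, h3]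
  rw [sub_right_comm, ← ff, sub_self]

theorem dvd_sub_rho (g : Γ) (a : AA j v Γ) : ff j v Γ ∣ a - rho j v g a := by
  induction a using MvPolynomial.induction_on with
  | C c => simp [rho]
  | add p q hp hq =>
    rw [map_add, add_sub_add_comm]
    exact dvd_add hp hq
  | mul_X p u hp =>
    have h : ff j v Γ ∣ X u - rho j v g (X u) := by
      by_cases hu : u = .inr (g, none) <;> simp [rho, sb, hu]
    rw [map_mul, show p * X u - rho j v g p * rho j v g (X u) =
      (p - rho j v g p) * X u + rho j v g p * (X u - rho j v g (X u)) by ring]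
    exact dvd_add (hp.mul_right _) (h.mul_left _)

theorem mem_MM {g : Γ} {a : AA j v Γ} : a ∈ MM j v g ↔ rho j v g a ≠ 0 :=
  mem_nonZeroDivisors_iff_ne_zero

theorem MM_le (g : Γ) : MM j v g ≤ nonZeroDivisors (AA j v Γ) := fun a ha =>
  mem_nonZeroDivisors_iff_ne_zero.2 fun h => mem_MM.1 ha (by rw [h, map_zero])

theorem ff_ne (g : Γ) : ff j v Γ ≠ 0 := fun h => by
  have : Nonempty Γ := ⟨g⟩
  have := congrArg (eval (Sum.elim (fun _ => (0 : ℂ)) fun _ => 1)) h
  simp [ff, zz] at this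

instance (g : Γ) : IsDomain (OO j v g) := IsLocalization.isDomain_localization (MM_le g)

theorem al_inj (g : Γ) : Function.Injective (al (σ := Vr j v Γ) (OO j v g)) :=
  IsLocalization.injective _ (MM_le g)

theorem f_not_unit (g : Γ) : ¬ IsUnit (al (OO j v g) (ff j v Γ)) := fun h => by
  obtain ⟨z, hz⟩ := h.exists_right_inv
  obtain ⟨⟨a, m⟩, h⟩ := IsLocalization.surj (MM j v g) z
  have h1 : ff j v Γ * a = m := al_inj g (by
    rw [map_mul]
    linear_combination (-al (OO j v g) (ff j v Γ)) * h + al (OO j v g) (m : AA j v Γ) * hz)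
  exact mem_MM.1 m.2 (by rw [← h1, map_mul, rho_f, zero_mul])

theorem unit_of_not_dvd {g : Γ} {z : OO j v g} (hz : ¬ al (OO j v g) (ff j v Γ) ∣ z) :
    IsUnit z := by
  obtain ⟨⟨a, m⟩, h⟩ := IsLocalization.surj (MM j v g) z
  by_cases ha : rho j v g a = 0
  · have h1 := map_dvd (al (OO j v g)) (dvd_sub_rho g a)
    rw [ha, sub_zero] at h1
    exact (hz ((IsLocalization.map_units (OO j v g) m).dvd_mul_right.1 (h ▸ h1))).elim
  · exact isUnit_of_mul_isUnit_left (h ▸ IsLocalization.map_units (OO j v g) ⟨a, mem_MM.2 ha⟩)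

/-- The neutral elements: constants and coefficients outside the block of `g`. -/
def NN (j v : ℕ) (g₀ g : Γ) : Set (OO j v g₀) :=
  {z | (∃ c : ℂ, z = al (OO j v g₀) (C c : AA j v Γ)) ∨
    ∃ (u : Vr j v Γ) (c : ℂ), (∀ x, u ≠ .inr (g, x)) ∧ z = al (OO j v g₀) (X u + C c)}

/-- The coefficients in the block of `g`. -/
def BB (j v : ℕ) (g₀ g : Γ) : Set (OO j v g₀) :=
  {z | ∃ x c, z = al (OO j v g₀) (X (.inr (g, x)) + C c : AA j v Γ)}

/-- Truncated polynomials. -/
abbrev Tr (j : ℕ) (O : Type) [CommRing O] : Type :=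
  AdjoinRoot (Polynomial.X ^ (j + 1) : Polynomial O)

theorem root_pow (O : Type) [CommRing O] :
    (AdjoinRoot.root (Polynomial.X ^ (j + 1) : Polynomial O)) ^ (j + 1) = 0 := by
  rw [← AdjoinRoot.mk_X, ← map_pow, AdjoinRoot.mk_self]

theorem of_cancel {O : Type} [CommRing O] [IsDomain O] {x : O} (hx : x ≠ 0) {z : Tr j O}
    (h : AdjoinRoot.of _ x * z = 0) : z = 0 := by
  obtain ⟨p, rfl⟩ := AdjoinRoot.mk_surjective z
  rw [← AdjoinRoot.mk_C, ← map_mul, AdjoinRoot.mk_eq_zero, Polynomial.X_pow_dvd_iff] at h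
  rw [AdjoinRoot.mk_eq_zero, Polynomial.X_pow_dvd_iff]
  exact fun d hd => by simpa [hx] using h d hd

theorem dvd_coeff {O : Type} [CommRing O] {x : O} {q : Polynomial O}
    (h : (AdjoinRoot.of _ x : Tr j O) ∣ AdjoinRoot.mk _ q) : x ∣ q.coeff j := by
  obtain ⟨z, h⟩ := h
  obtain ⟨p, rfl⟩ := AdjoinRoot.mk_surjective z
  rw [← AdjoinRoot.mk_C, ← map_mul, AdjoinRoot.mk_eq_mk, Polynomial.X_pow_dvd_iff] at h
  exact ⟨p.coeff j, by simpa [sub_eq_zero] using h j (by omega)⟩

theorem coeff_top {O : Type} [CommRing O] (x : Fin j × Fin v → O) (c : (Fin j → Fin v) → O)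
    (α₀ : Fin j → Fin v) :
    (∑ α : Fin j → Fin v, Polynomial.C (c α) * ∏ b, (Polynomial.C (x (b, α b)) +
      if α b = α₀ b then Polynomial.X else 0)).coeff j = c α₀ := by
  have h : ∀ α : Fin j → Fin v, (∏ b, (Polynomial.C (x (b, α b)) +
      if α b = α₀ b then (Polynomial.X : Polynomial O) else 0)).coeff j =
      if α = α₀ then 1 else 0 := fun α => by
    have := Polynomial.coeff_prod_of_natDegree_le (s := univ) (fun b => Polynomial.C (x (b, α b)) +
      if α b = α₀ b then (Polynomial.X : Polynomial O) else 0) 1 fun b _ => by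
        split_ifs
        · rw [add_comm]
          exact Polynomial.natDegree_add_le_of_degree_le Polynomial.natDegree_X_le (by simp)
        · simp
    rw [card_univ, Fintype.card_fin, mul_one] at this
    rw [this]
    split_ifs with h
    · simp [h]
    · obtain ⟨b, hb⟩ := Function.ne_iff.1 h
      exact prod_eq_zero (mem_univ b) (by simp [hb])
  simp [h]

instance (K : Type) [Field K] : Module.Finite K (Tr j K) :=
  (Polynomial.monic_X_pow _).finite_adjoinRoot

noncomputable def chi (j : ℕ) {O K : Type} [CommRing O] [CommRing K] (κ : O →+* K) :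
    Tr j O →+* Tr j K :=
  AdjoinRoot.lift ((AdjoinRoot.of _).comp κ) (AdjoinRoot.root _) (by simp [root_pow])

theorem chi_inj {O K : Type} [CommRing O] [CommRing K] {κ : O →+* K} (hκ : Function.Injective κ) :
    Function.Injective (chi j κ) := by
  refine (injective_iff_map_eq_zero _).2 fun z hz => ?_
  obtain ⟨p, rfl⟩ := AdjoinRoot.mk_surjective z
  rw [chi, AdjoinRoot.lift_mk, ← Polynomial.eval₂_map, ← AdjoinRoot.algebraMap_eq,
    ← Polynomial.aeval_def, AdjoinRoot.aeval_eq, AdjoinRoot.mk_eq_zero,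
    Polynomial.X_pow_dvd_iff] at hz
  rw [AdjoinRoot.mk_eq_zero, Polynomial.X_pow_dvd_iff]
  exact fun d hd => hκ (by simpa using hz d hd)

/-- The variation of the coefficients of `P`. -/
noncomputable def DD (O : Type) [CommRing O] : Vr j v Γ → (Fin j → Fin v) → O :=
  Sum.elim (fun α a => if a = α then 1 else 0) fun _ _ => 0

theorem exists_dir (g₀ g : Γ) (α₀ : Fin j → Fin v) : ∃ e : Vr j v Γ → Tr j (OO j v g₀),
    (∀ u, AdjoinRoot.root _ ∣ e u) ∧ (∀ u, (∀ x, u ≠ .inr (g, x)) → e u = 0) ∧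
    ∀ (c : (Fin j → Fin v) → OO j v g₀) (Θ : OO j v g₀ →+* DualNumber (Tr j (OO j v g₀))),
      IsTh (AdjoinRoot.of _) e (fun u => AdjoinRoot.of _ (∑ a, c a * DD _ u a)) Θ →
      ∀ y, y ≠ 0 → ¬ IsUnit y → (Θ y).snd = 0 → al (OO j v g₀) (ff j v Γ) ∣ c α₀ := by
  classical
  have : IsNoetherianRing (OO j v g₀) :=
    IsLocalization.isNoetherianRing (MM j v g₀) _ inferInstance
  let o : OO j v g₀ →+* Tr j (OO j v g₀) := AdjoinRoot.of _
  have hf0 : al (OO j v g₀) (ff j v Γ) ≠ 0 := fun h => ff_ne g (al_inj g₀ (by rw [h, map_zero]))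
  let x : Fin j × Fin v → OO j v g₀ := fun q => al (OO j v g₀) (zz (some q) : AA j v Γ)
  let η : Fin j × Fin v → Tr j (OO j v g₀) := fun q =>
    AdjoinRoot.mk _ (if q.2 = α₀ q.1 then Polynomial.X else 0)
  let ε : Tr j (OO j v g₀) := ∑ α : Fin j → Fin v, o (al (OO j v g₀) (X (.inl α) : AA j v Γ)) *
    (∏ b, (o (x (b, α b)) + η (b, α b)) - ∏ b, o (x (b, α b)))
  let e : Vr j v Γ → Tr j (OO j v g₀) :=
    Sum.elim 0 fun p => if p.1 = g then p.2.elim ε η else 0
  have hη : ∀ q, AdjoinRoot.root _ ∣ η q := fun q => by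
    simp only [η]
    split_ifs <;> simp
  refine ⟨e, ?_, ?_, fun c Θ₁ t₁ y h0 hu h2 => ?_⟩
  · rintro (α | ⟨g', _ | q⟩)
    · simp [e]
    · simp only [e, Sum.elim_inr, Option.elim_none]
      split_ifs
      · exact dvd_sum fun α _ => (dvd_prod_sub _ fun b => by simpa using hη _).mul_left _
      · simp
    · simp only [e, Sum.elim_inr, Option.elim_some]
      split_ifs
      · exact hη q
      · simp
  · rintro (α | ⟨g', y⟩) h
    · rfl
    · exact if_neg fun h' : g' = g => h y (by rw [h'])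
  have hX : ∀ q, Θ₁ (al (OO j v g₀) (zz q : AA j v Γ)) =
      inl (o (al (OO j v g₀) (zz q : AA j v Γ)) + q.elim ε η) := fun q => by
    simp only [zz, map_sum, t₁.hX]
    ext <;> simp [fst_sum, snd_sum, e, DD, o, sum_add_distrib]
  have hP : ∀ α : Fin j → Fin v, ∏ b, Θ₁ (x (b, α b)) =
      inl (∏ b, (o (x (b, α b)) + η (b, α b))) := fun α => by
    simp only [x, hX]
    exact (map_prod (inlHom _ _) _ _).symm
  have hF : Θ₁ (al (OO j v g₀) (ff j v Γ)) = inl (o (al (OO j v g₀) (ff j v Γ))) +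
      inr (-∑ α : Fin j → Fin v, o (c α) * ∏ b, (o (x (b, α b)) + η (b, α b))) := by
    simp only [ff, map_sub, map_sum, map_mul, map_prod]
    simp only [x] at hP
    simp only [hP]
    simp only [hX, t₁.hX]
    ext
    · simp [fst_sum, e, ε, x, mul_sub, o]
      ring
    · simp [snd_sum, DD, x, o]
  obtain ⟨μ, a, ha, hy⟩ := WfDvdMonoid.max_power_factor' h0 (f_not_unit g₀)
  have hau := unit_of_not_dvd ha
  obtain _ | μ := μ
  · exact (hu (by rwa [hy, pow_zero, one_mul])).elim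
  have h3 : o (al (OO j v g₀) (ff j v Γ)) * (Θ₁ a).snd + (Θ₁ (al (OO j v g₀) (ff j v Γ))).snd *
      (((μ + 1 : ℕ) : Tr j (OO j v g₀)) * (Θ₁ a).fst) = 0 := by
    refine of_cancel (pow_ne_zero μ hf0) ?_
    rw [hy, map_mul, map_pow, DualNumber.snd_mul, snd_pow, fst_pow] at h2
    have : (Θ₁ (al (OO j v g₀) (ff j v Γ))).fst = o (al (OO j v g₀) (ff j v Γ)) := by
      rw [hF]
      simp
    simp only [this, Nat.pred_succ, smul_eq_mul, nsmul_eq_mul] at h2
    rw [← h2, map_pow]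
    ring
  have h4 : IsUnit (((μ + 1 : ℕ) : Tr j (OO j v g₀)) * (Θ₁ a).fst) := by
    refine IsUnit.mul ?_ (isUnit_iff_isUnit_fst.1 (hau.map Θ₁))
    have := (((Nat.cast_ne_zero (R := ℂ)).2 μ.succ_ne_zero).isUnit.map
      (C : ℂ →+* AA j v Γ)).map (o.comp (al (OO j v g₀)))
    rwa [map_natCast, map_natCast] at this
  have h5 : o (al (OO j v g₀) (ff j v Γ)) ∣ -(Θ₁ (al (OO j v g₀) (ff j v Γ))).snd :=
    h4.dvd_mul_right.1 ⟨(Θ₁ a).snd, by linear_combination -h3⟩
  refine coeff_top x c α₀ ▸ dvd_coeff ?_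
  convert h5 using 1
  rw [hF]
  simp [o, η]

theorem alg_main (g₀ g : Γ) {K : Type} [Field K] {κ : OO j v g₀ →+* K}
    (hκ : Function.Injective κ) (hd : ∀ k : (Fin j → Fin v) → K,
      ∃ s, s ≠ 0 ∧ ∃ c : (Fin j → Fin v) → OO j v g₀, ∀ a, κ (c a) = κ s * k a) :
    ∃ F : Fam (OO j v g₀) K ((Fin j → Fin v) → Tr j K) ((Fin j → Fin v) → OO j v g₀) j,
      (∀ z ∈ NN j v g₀ g, F.τ z = algebraMap K _ (F.k z) ∧
        ∀ c, ∃ a, (F.Θ c z).snd = algebraMap K _ a) ∧
      (∀ z ∈ BB j v g₀ g, ∀ c, (F.Θ c z).snd = 0) ∧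
      ∀ y, y ≠ 0 → ¬ IsUnit y → ∀ W : Submodule K ((Fin j → Fin v) → Tr j K),
        (∀ c, (F.Θ c y).snd ∈ W) → v ^ j ≤ Module.finrank K W := by
  classical
  have : IsNoetherianRing (OO j v g₀) :=
    IsLocalization.isNoetherianRing (MM j v g₀) _ inferInstance
  choose e₁ he₁ he₀ hdir using exists_dir (j := j) (v := v) g₀ g
  let o : OO j v g₀ →+* (Fin j → Fin v) → Tr j K := (algebraMap K _).comp κ
  let e : Vr j v Γ → (Fin j → Fin v) → Tr j K := fun u α => chi j κ (e₁ α u)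
  let t : (Fin j → Fin v) → Tr j K := fun _ => AdjoinRoot.root _
  have ht : t ^ (j + 1) = 0 := funext fun _ => root_pow K
  have he : ∀ u, t ∣ e u := fun u => by
    choose a ha using fun α => he₁ α u
    exact ⟨fun α => chi j κ (a α), funext fun α => by simp [e, ha, t, chi]⟩
  choose Θ hΘ using fun c : (Fin j → Fin v) → OO j v g₀ =>
    exists_th (o := o) (MM j v g₀) ⟨_, ht⟩ he fun u => o (∑ a, c a * DD _ u a)
  refine ⟨⟨t, κ, (fstHom K _ _).toRingHom.comp (Θ 0), Θ, ht,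
    fun c z => (hΘ c).fst_eq (MM j v g₀) (hΘ 0) z, (hΘ 0).dvd (MM j v g₀) he⟩, ?_, ?_,
    fun y h0 hu W hW => ?_⟩
  · rintro _ (⟨a, rfl⟩ | ⟨u, a, hu, rfl⟩)
    · exact ⟨by simp [(hΘ 0).hC, o], fun c => ⟨0, by simp [(hΘ c).hC]⟩⟩
    · have : e u = 0 := funext fun α => by simp [e, he₀ α u hu]
      exact ⟨by simp [(hΘ 0).hC, (hΘ 0).hX, o, this], fun c => ⟨κ (∑ a, c a * DD _ u a), by
        simp only [map_add, (hΘ c).hC, (hΘ c).hX, snd_add, snd_inl, snd_inr, zero_add, add_zero]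
        rfl⟩⟩
  · rintro _ ⟨x, a, rfl⟩ c
    simp [(hΘ c).hC, (hΘ c).hX, DD]
  by_contra hlt
  obtain ⟨w, hw⟩ := exists_grad (MM j v g₀) hΘ y
  have hwW : ∀ a, w a ∈ W := fun a => by
    simpa [hw, Pi.single_apply, apply_ite o] using hW (Pi.single a 1)
  obtain ⟨c, hc, α, hα⟩ := exists_prim hκ hd (w := w) (fun h => hlt (by
    have h' : LinearIndependent K (W.subtype ∘ fun a => (⟨w a, hwW a⟩ : W)) := h
    simpa using (LinearIndependent.of_comp _ h').fintype_card_le_finrank))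
    (fun h => ff_ne g (al_inj g₀ (by rw [h, map_zero]))) (f_not_unit g₀)
  obtain ⟨Θ₁, t₁⟩ := exists_th (o := AdjoinRoot.of _) (MM j v g₀) ⟨_, root_pow _⟩ (he₁ α)
    fun u => AdjoinRoot.of _ (∑ a, c a * DD _ u a)
  have ho : ∀ z, chi j κ (AdjoinRoot.of _ z) = Pi.evalRingHom _ α (o z) := fun z => by
    simp [chi, o]
  refine hα (hdir α c Θ₁ t₁ y h0 hu (chi_inj hκ ?_))
  rw [t₁.snd_eq (MM j v g₀) (hΘ c) ho (fun _ => rfl) (fun _ => ho _), hw, map_zero,
    show ∑ a, o (c a) * w a = 0 by simpa only [Algebra.smul_def, o, RingHom.comp_apply] using hc,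
    map_zero]

end Pool.Agent.MP_57f271_lc.H26
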