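import Pool.Agent.MP_57f271_lc.H26.Lin

/-!
First order variations of the jets of a straight-line run lie in a space of small dimension.
-/

set_option autoImplicit false
set_option linter.unusedSectionVars false

namespace Pool.Agent.MP_57f271_lc.H26

open Finset Module Submodule TrivSqZeroExt

variable {O K R ι : Type} [CommRing O] [Field K] [CommRing R] [Algebra K R] [Module.Finite K R]
  {S j : ℕ}

/-- Elements obtained from neutral elements and the entries of `r` by ring operations and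
inverses of units. -/
inductive Cl (N : Set O) (r : Fin S → O) : O → Prop
  | neu {z : O} : z ∈ N → Cl N r z
  | reg (i : Fin S) : Cl N r (r i)
  | add {a b : O} : Cl N r a → Cl N r b → Cl N r (a + b)
  | sub {a b : O} : Cl N r a → Cl N r b → Cl N r (a - b)
  | mul {a b : O} : Cl N r a → Cl N r b → Cl N r (a * b)
  | inv {u : Oˣ} : Cl N r (u : O) → Cl N r (↑u⁻¹ : O)

/-- A family of first order variations `Θ c` of a deformation `τ` of the point `k`. -/
structure Fam (O K R ι : Type) [CommRing O] [Field K] [CommRing R] [Algebra K R] (j : ℕ) where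
  t : R
  k : O →+* K
  τ : O →+* R
  Θ : ι → O →+* DualNumber R
  ht : t ^ (j + 1) = 0
  hτ : ∀ c z, (Θ c z).fst = τ z
  hd : ∀ z, t ∣ τ z - algebraMap K R (k z)

namespace Fam

variable (F : Fam O K R ι j)

noncomputable def dv (b : Fin S → O) (i : Fin S) : R := F.τ (b i) - algebraMap K R (F.k (b i))

def Near (x : R) : Prop := ∃ a : K, F.t ∣ x - algebraMap K R a

def Tan (b : Fin S → O) (z : O) : Prop :=
  F.τ z ∈ Al K (F.dv b) ∧ ∃ J : Fin S → R, (∀ i, J i ∈ Al K (F.dv b)) ∧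
    ∀ c, (F.Θ c z).snd - ∑ i, J i * (F.Θ c (b i)).snd ∈ Al K (F.dv b)

def QQ (b : Fin S → O) (n : ℕ) : Prop :=
  ∀ Λ : Fin S → R, (∀ k, F.Near (Λ k)) → ∀ W : Submodule K R,
    span K (Set.range Λ) * Al K (F.dv b) ≤ W → ∃ W' : Submodule K R, W ≤ W' ∧
      finrank K W' + 2 * mu S j 1 * finrank K (Lp K F.t (F.dv b)) ≤ finrank K W +
        2 * mu S j 1 * finrank K (Lp K F.t (0 : Fin S → R)) + n * (4 * mu S j 1) ∧
      ∀ c, ∑ k, Λ k * (F.Θ c (b k)).snd ∈ W'

variable {F}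

theorem Near.add {x y : R} (hx : F.Near x) (hy : F.Near y) : F.Near (x + y) := by
  obtain ⟨a, ha⟩ := hx
  obtain ⟨b, hb⟩ := hy
  exact ⟨a + b, by rw [map_add, add_sub_add_comm]; exact dvd_add ha hb⟩

theorem Near.mul {x y : R} (hx : F.Near x) (hy : F.Near y) : F.Near (x * y) := by
  obtain ⟨a, ha⟩ := hx
  obtain ⟨b, hb⟩ := hy
  refine ⟨a * b, ?_⟩
  rw [show x * y - algebraMap K R (a * b) = (x - algebraMap K R a) * y +
    algebraMap K R a * (y - algebraMap K R b) by rw [map_mul]; ring]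
  exact dvd_add (ha.mul_right _) (hb.mul_left _)

theorem near_al {b : Fin S → O} {x : R} (hx : x ∈ Al K (F.dv b)) : F.Near x := by
  induction hx using Algebra.adjoin_induction with
  | mem x hx =>
    obtain ⟨i, rfl⟩ := hx
    exact ⟨0, by simpa [dv] using F.hd (b i)⟩
  | algebraMap a => exact ⟨a, by simp⟩
  | add x y _ _ hx hy => exact hx.add hy
  | mul x y _ _ hx hy => exact hx.mul hy

theorem tan_self (b : Fin S → O) (k : Fin S) : F.Tan b (b k) := by
  refine ⟨sub_add_cancel (F.τ (b k)) (algebraMap K R (F.k (b k))) ▸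
    add_mem (Al.gen (F.dv b) k) (Al.const _ _), Pi.single k 1, fun i => ?_, fun c => ?_⟩
  · rw [Pi.single_apply]
    split_ifs
    exacts [map_one (algebraMap K R) ▸ Al.const _ 1, zero_mem _]
  · simp [Pi.single_apply]

theorem tan_cl {N : Set O} (hN : ∀ z ∈ N, F.τ z = algebraMap K R (F.k z) ∧
    ∀ c, ∃ a, (F.Θ c z).snd = algebraMap K R a) {b r : Fin S → O} (h : ∀ i, F.Tan b (r i))
    {z : O} (hz : Cl N r z) : F.Tan b z := by
  induction hz with
  | neu hz => exact ⟨(hN _ hz).1 ▸ Al.const _ _, 0, fun _ => zero_mem _, fun c => by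
      obtain ⟨a, ha⟩ := (hN _ hz).2 c
      simpa [ha] using Al.const _ a⟩
  | reg i => exact h i
  | add _ _ h1 h2 =>
    obtain ⟨h1, J, hJ, e⟩ := h1
    obtain ⟨h2, J', hJ', e'⟩ := h2
    refine ⟨map_add F.τ _ _ ▸ add_mem h1 h2, J + J', fun i => add_mem (hJ i) (hJ' i), fun c => ?_⟩
    convert add_mem (e c) (e' c) using 1
    simp only [map_add, snd_add, Pi.add_apply, add_mul, sum_add_distrib]
    ring
  | sub _ _ h1 h2 =>
    obtain ⟨h1, J, hJ, e⟩ := h1
    obtain ⟨h2, J', hJ', e'⟩ := h2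
    refine ⟨map_sub F.τ _ _ ▸ sub_mem h1 h2, J - J', fun i => sub_mem (hJ i) (hJ' i), fun c => ?_⟩
    convert sub_mem (e c) (e' c) using 1
    simp only [map_sub, snd_sub, Pi.sub_apply, sub_mul, sum_sub_distrib]
    ring
  | @mul x y _ _ h1 h2 =>
    obtain ⟨h1, J, hJ, e⟩ := h1
    obtain ⟨h2, J', hJ', e'⟩ := h2
    refine ⟨map_mul F.τ _ _ ▸ Al.mul h1 h2, fun i => F.τ y * J i + F.τ x * J' i,
      fun i => add_mem (Al.mul h2 (hJ i)) (Al.mul h1 (hJ' i)), fun c => ?_⟩
    convert add_mem (Al.mul h2 (e c)) (Al.mul h1 (e' c)) using 1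
    simp only [map_mul, DualNumber.snd_mul, F.hτ, add_mul, sum_add_distrib, mul_assoc, ← mul_sum]
    ring
  | @inv u _ h1 =>
    obtain ⟨h1, J, hJ, e⟩ := h1
    have e2 : F.τ u * F.τ ↑u⁻¹ = 1 := by rw [← map_mul, Units.mul_inv, map_one]
    have h2 : F.τ ↑u⁻¹ ∈ Al K (F.dv b) := by
      have e1 : algebraMap K R (F.k u) * algebraMap K R (F.k ↑u⁻¹) = 1 := by
        rw [← map_mul, ← map_mul, Units.mul_inv, map_one, map_one]
      have e3 : ((algebraMap K R (F.k u) - F.τ u) * algebraMap K R (F.k ↑u⁻¹)) ^ (j + 1) = 0 := by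
        obtain ⟨c, hc⟩ := F.hd u
        rw [show algebraMap K R (F.k u) - F.τ u = F.t * -c by linear_combination -hc, mul_pow,
          mul_pow, F.ht, zero_mul, zero_mul]
      have e4 := geom_sum_mul_neg ((algebraMap K R (F.k u) - F.τ u) * algebraMap K R (F.k ↑u⁻¹))
        (j + 1)
      rw [e3, sub_zero] at e4
      have e5 : ∑ i ∈ range (j + 1), ((algebraMap K R (F.k u) - F.τ u) *
          algebraMap K R (F.k ↑u⁻¹)) ^ i ∈ Al K (F.dv b) := sum_mem fun i _ =>
        (Algebra.adjoin K (Set.range (F.dv b))).pow_mem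
          (Al.mul (sub_mem (Al.const _ _) h1) (Al.const _ _)) i
      generalize ∑ i ∈ range (j + 1), ((algebraMap K R (F.k u) - F.τ u) *
        algebraMap K R (F.k ↑u⁻¹)) ^ i = G at e4 e5
      convert Al.mul (Al.const _ (F.k ↑u⁻¹)) e5 using 1
      linear_combination (-F.τ ↑u⁻¹) * e4 + (algebraMap K R (F.k ↑u⁻¹) * G) * e2 -
        (F.τ ↑u⁻¹ * G) * e1
    refine ⟨h2, fun i => -(F.τ ↑u⁻¹ * F.τ ↑u⁻¹) * J i,
      fun i => Al.mul (neg_mem (Al.mul h2 h2)) (hJ i), fun c => ?_⟩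
    have e6 := congrArg (fun z => (F.Θ c z).snd) u.mul_inv
    simp only [map_mul, DualNumber.snd_mul, F.hτ, map_one, snd_one] at e6
    convert Al.mul (neg_mem (Al.mul h2 h2)) (e c) using 1
    simp only [mul_assoc, neg_mul, ← mul_sum, sum_neg_distrib]
    linear_combination F.τ ↑u⁻¹ * e6 - (F.Θ c ↑u⁻¹).snd * e2

theorem qq_zero : F.QQ (0 : Fin S → O) 0 := fun Λ _ W _ =>
  ⟨W, le_rfl, by rw [show F.dv (0 : Fin S → O) = 0 from funext fun i => by simp [dv]]; simp,
    fun c => by simp⟩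

theorem qq_step {b b' : Fin S → O} {n : ℕ} (h : F.QQ b' n) {k₀ : Fin S}
    (h1 : ∀ k, k ≠ k₀ → F.Tan b' (b k)) (h2 : ∀ c, (F.Θ c (b k₀)).snd = 0) : F.QQ b (n + 1) := by
  intro Λ hΛ W hW
  have h3 : ∀ k, ∃ J : Fin S → R, (∀ i, J i ∈ Al K (F.dv b')) ∧
      ∀ c, (F.Θ c (b k)).snd - ∑ i, J i * (F.Θ c (b' i)).snd ∈ Al K (F.dv b') := fun k => by
    by_cases e : k = k₀
    · exact ⟨0, fun _ => zero_mem _, fun c => by simp [e, h2]⟩
    · exact (h1 k e).2
  choose J hJ e using h3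
  have h4 := dim_step (d := Function.update (F.dv b) k₀ 0) (d' := F.dv b') F.ht
    (Function.forall_update_iff _ (fun _ x => F.t ∣ x) |>.2 ⟨dvd_zero _, fun i _ => F.hd _⟩)
    (fun i => F.hd _) (Function.forall_update_iff _ (fun _ x => x ∈ Al K (F.dv b')) |>.2
      ⟨zero_mem _, fun i hi => sub_mem (h1 i hi).1 (Al.const _ _)⟩) hΛ
    ((mul_le_mul_right (Al.le (Function.forall_update_iff _ (fun _ x => x ∈ Al K (F.dv b)) |>.2
      ⟨zero_mem _, fun i _ => Al.gen _ i⟩)) _).trans hW)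
  have h5 : finrank K (Lp K F.t (F.dv b)) ≤
      finrank K (Lp K F.t (Function.update (F.dv b) k₀ 0)) + 1 := by
    refine (Submodule.finrank_mono (t := Lp K F.t (Function.update (F.dv b) k₀ 0) ⊔
      span K (Set.range fun _ : Unit => F.dv b k₀)) (sup_le (le_sup_of_le_left le_sup_left)
        (span_le.2 (Set.range_subset_iff.2 fun i => ?_)))).trans
      ((finrank_add_le_finrank_add_finrank _ _).trans
        (Nat.add_le_add_left (finrank_range_le_card _) _))
    by_cases e : i = k₀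
    · exact mem_sup_right (subset_span ⟨(), by rw [e]⟩)
    · exact mem_sup_left (mem_sup_right (subset_span ⟨i, Function.update_of_ne e _ _⟩))
  obtain ⟨W', w1, w2, w3⟩ := h (fun i => ∑ k, Λ k * J k i)
    (fun i => sum_induction _ F.Near (fun _ _ => Near.add) ⟨0, by simp⟩
      fun k _ => (hΛ k).mul (near_al (hJ k i)))
    (W ⊔ span K (Set.range Λ) * Al K (F.dv b')) (le_sup_of_le_right (by
      rw [← Submodule.span_eq (Al K (F.dv b')), span_mul_span, Submodule.span_eq, span_le]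
      rintro _ ⟨_, ⟨i, rfl⟩, x, hx, rfl⟩
      simp only [sum_mul, mul_assoc]
      exact sum_mem fun k _ => Submodule.mul_mem_mul (subset_span ⟨k, rfl⟩) (Al.mul (hJ k i) hx)))
  refine ⟨W', le_sup_left.trans w1, by nlinarith [Nat.mul_le_mul_left (2 * mu S j 1) h5],
    fun c => ?_⟩
  convert add_mem (sum_mem fun k (_ : k ∈ univ) => w1 (mem_sup_right (Submodule.mul_mem_mul
    (subset_span ⟨k, rfl⟩) (e k c)))) (w3 c) using 1
  simp only [mul_sub, sum_sub_distrib, mul_sum, sum_mul, mul_assoc]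
  rw [sum_comm, sub_add_cancel]

theorem qq_final {b : Fin S → O} {n : ℕ} (h : F.QQ b n) {z : O} (hz : F.Tan b z) :
    ∃ W : Submodule K R, finrank K W ≤ (S + 1) ^ j + n * (4 * mu S j 1) ∧
      ∀ c, (F.Θ c z).snd ∈ W := by
  obtain ⟨-, J, hJ, e⟩ := hz
  obtain ⟨W, w1, w2, w3⟩ := h J (fun i => near_al (hJ i)) (Al K (F.dv b))
    (Submodule.mul_le.2 fun x hx y hy => Al.mul (span_le.2 (Set.range_subset_iff.2 hJ) hx) hy)
  refine ⟨W, ?_, fun c => by simpa using add_mem (w1 (e c)) (w3 c)⟩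
  have h1 := dim_mul (K := K) F.ht (d := F.dv b) (fun i => F.hd _) (z := fun _ : Unit => 1)
    (fun _ => 0) (by simp)
  have h2 : finrank K (Al K (F.dv b)) ≤ (S + 1) ^ j :=
    (Submodule.finrank_mono fun x hx => one_mul x ▸
      Submodule.mul_mem_mul (subset_span ⟨(), rfl⟩) hx).trans (h1.trans (by simp [mu]))
  have h3 : finrank K (Lp K F.t (0 : Fin S → R)) ≤ finrank K (Lp K F.t (F.dv b)) :=
    Submodule.finrank_mono (sup_le le_sup_left (span_le.2 (Set.range_subset_iff.2 fun _ =>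
      zero_mem _)))
  nlinarith [Nat.mul_le_mul_left (2 * mu S j 1) h3]

theorem tan_run {N B : Set O} (hN : ∀ z ∈ N, F.τ z = algebraMap K R (F.k z) ∧
    ∀ c, ∃ a, (F.Θ c z).snd = algebraMap K R a) (hB : ∀ z ∈ B, ∀ c, (F.Θ c z).snd = 0)
    (r : ℕ → Fin S → O) (h0 : r 0 = 0) (blk : ℕ → Prop) [DecidablePred blk] (T : ℕ)
    (hb : ∀ s < T, blk s → ∃ k₀, r (s + 1) k₀ ∈ B ∧ ∀ k, k ≠ k₀ → r (s + 1) k = r s k)
    (hn : ∀ s < T, ¬ blk s → ∀ k, Cl N (r s) (r (s + 1) k)) (k : Fin S) :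
    ∃ W : Submodule K R, finrank K W ≤ (S + 1) ^ j + ((range T).filter blk).card * (4 * mu S j 1) ∧
      ∀ c, (F.Θ c (r T k)).snd ∈ W := by
  suffices h : ∃ b, F.QQ b ((range T).filter blk).card ∧ ∀ k, F.Tan b (r T k) by
    obtain ⟨b, h1, h2⟩ := h
    exact qq_final h1 (h2 k)
  induction T with
  | zero =>
    refine ⟨0, qq_zero, fun k => ?_⟩
    rw [h0]
    exact tan_self 0 k
  | succ T ih =>
    obtain ⟨b, h1, h2⟩ := ih (fun s hs => hb s (by omega)) fun s hs => hn s (by omega)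
    rw [range_add_one, filter_insert]
    by_cases hT : blk T
    · obtain ⟨k₀, e1, e2⟩ := hb T (by omega) hT
      rw [if_pos hT, card_insert_of_notMem (by simp)]
      refine ⟨r (T + 1), qq_step h1 (fun k hk => ?_) (hB _ e1), tan_self _⟩
      rw [e2 k hk]
      exact h2 k
    · rw [if_neg hT]
      exact ⟨b, h1, fun k => tan_cl hN h2 (hn T (by omega) hT k)⟩

end Fam

end Pool.Agent.MP_57f271_lc.H26
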