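import Pool.Agent.MP_57f271_lc.H26.Defs
import Pool.Agent.MP_57f271_lc.H26.Tan

/-!
Runs of a program over rings, and their specialisations.
-/

set_option autoImplicit false
set_option linter.unusedSectionVars false

namespace Pool.Agent.MP_57f271_lc.H26

open Pool.Agent.MP_57f271_lc.H18 MvPolynomial Finset

variable {σ : Type} {S : ℕ} {O O' : Type} [CommRing O] [CommRing O']

noncomputable def gop : Op → O → O → O
  | .add, a, b => a + b
  | .sub, a, b => a - b
  | .mul, a, b => a * b
  | .div, a, b => a * Ring.inverse b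

open Classical in
noncomputable def gstep (M : Prog σ S) (φ : ℂ → O) (x : σ → O) (c : M.Q × (Fin S → O)) :
    M.Q × (Fin S → O) :=
  match M.cmd c.1 with
  | .read s k next => (next, Function.update c.2 k (x s))
  | .const a k next => (next, Function.update c.2 k (φ a))
  | .arith o i j k next => (next, Function.update c.2 k (gop o (c.2 i) (c.2 j)))
  | .branch i yes no => (if c.2 i = 0 then yes else no, c.2)
  | .output _ => c

noncomputable def grun (M : Prog σ S) (φ : ℂ → O) (x : σ → O) (t : ℕ) : M.Q × (Fin S → O) :=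
  (gstep M φ x)^[t] (M.start, 0)

theorem grun_succ (M : Prog σ S) (φ : ℂ → O) (x : σ → O) (t : ℕ) :
    grun M φ x (t + 1) = gstep M φ x (grun M φ x t) := Function.iterate_succ_apply' _ _ _

theorem at_eq (M : Prog σ S) (x : σ → ℂ) (t : ℕ) : M.label x t = M.cmd (grun M id x t).1 := by
  have : M.step x = gstep M id x := by
    funext c
    unfold Prog.step gstep
    cases M.cmd c.1 with
    | arith o i j k next => cases o <;> simp [gop, Op.eval, div_eq_mul_inv]
    | branch i y n => simp only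
    | _ => rfl
  rw [Prog.label, this, grun]

theorem map_gop (ψ : O →+* O') (o : Op) (a : O) {b : O} (hb : b = 0 ∨ IsUnit b) :
    ψ (gop o a b) = gop o (ψ a) (ψ b) := by
  cases o <;> simp only [gop, map_add, map_sub, map_mul]
  rcases hb with rfl | ⟨u, rfl⟩
  · simp
  · rw [Ring.inverse_unit, show ψ u = (Units.map (ψ : O →* O') u : O'ˣ) from rfl,
      Ring.inverse_unit]
    rfl

theorem gstep_map [Nontrivial O'] (ψ : O →+* O') (M : Prog σ S) (φ : ℂ → O) (x : σ → O)
    (c : M.Q × (Fin S → O)) (h : ∀ k, c.2 k = 0 ∨ IsUnit (c.2 k)) :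
    gstep M (ψ ∘ φ) (ψ ∘ x) (c.1, ψ ∘ c.2) = ((gstep M φ x c).1, ψ ∘ (gstep M φ x c).2) := by
  unfold gstep
  simp only
  cases M.cmd c.1 with
  | read s k next => simp only [Function.comp_update, Function.comp_apply]
  | const a k next => simp only [Function.comp_update, Function.comp_apply]
  | arith o i j k next =>
    simp only [Function.comp_update, Function.comp_apply, map_gop ψ o _ (h j)]
  | branch i y n =>
    have : ψ (c.2 i) = 0 ↔ c.2 i = 0 :=
      ⟨fun e => (h i).resolve_right fun u => (u.map ψ).ne_zero e, fun e => by rw [e, map_zero]⟩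
    by_cases e : c.2 i = 0
    · simp [e]
    · simp [e, this]
  | output b => rfl

theorem grun_map [Nontrivial O'] (ψ : O →+* O') (M : Prog σ S) (φ : ℂ → O) (x : σ → O) (T : ℕ)
    (h : ∀ s < T, ∀ k, (grun M φ x s).2 k = 0 ∨ IsUnit ((grun M φ x s).2 k)) :
    grun M (ψ ∘ φ) (ψ ∘ x) T = ((grun M φ x T).1, ψ ∘ (grun M φ x T).2) := by
  induction T with
  | zero => simp [grun]
  | succ T ih =>
    rw [grun_succ, ih fun s hs => h s (by omega), gstep_map ψ M φ x _ (h T (by omega)), grun_succ]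

theorem step_cl (M : Prog σ S) (φ : ℂ → O) (x : σ → O) (c : M.Q × (Fin S → O)) {N : Set O}
    (h : ∀ k, c.2 k = 0 ∨ IsUnit (c.2 k)) (hφ : ∀ a, φ a ∈ N)
    (hx : ∀ s k q, M.cmd c.1 = .read s k q → x s ∈ N) (k : Fin S) :
    Cl N c.2 ((gstep M φ x c).2 k) := by
  have up : ∀ (i : Fin S) (z : O), Cl N c.2 z → Cl N c.2 (Function.update c.2 i z k) := by
    intro i z hz
    by_cases e : k = i
    · rwa [e, Function.update_self]
    · rw [Function.update_of_ne e]
      exact .reg k
  unfold gstep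
  cases hc : M.cmd c.1 with
  | read s i next => exact up _ _ (.neu (hx s i next hc))
  | const a i next => exact up _ _ (.neu (hφ a))
  | arith o i j l next =>
    refine up _ _ ?_
    cases o
    · exact .add (.reg i) (.reg j)
    · exact .sub (.reg i) (.reg j)
    · exact .mul (.reg i) (.reg j)
    · refine .mul (.reg i) ?_
      rcases h j with e | ⟨u, e⟩
      · rw [e, Ring.inverse_zero, ← sub_self (c.2 j)]
        exact .sub (.reg j) (.reg j)
      · rw [← e, Ring.inverse_unit]
        exact .inv (e ▸ .reg j)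
  | branch i y n => exact .reg k
  | output b => exact .reg k

theorem step_read (M : Prog σ S) (φ : ℂ → O) (x : σ → O) (c : M.Q × (Fin S → O)) {s : σ}
    {i : Fin S} {q : M.Q} (hc : M.cmd c.1 = .read s i q) :
    (gstep M φ x c).2 i = x s ∧ ∀ k, k ≠ i → (gstep M φ x c).2 k = c.2 k := by
  unfold gstep
  rw [hc]
  exact ⟨by simp, fun k e => by simp [e]⟩

variable {A : Type} [CommRing A] [IsDomain A] {W : Submonoid A}

noncomputable def iota (hW : W ≤ nonZeroDivisors A) : Localization W →+* FractionRing A :=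
  IsLocalization.lift (M := W) (g := algebraMap A (FractionRing A)) fun m =>
    IsLocalization.map_units (M := nonZeroDivisors A) _ ⟨m, hW m.2⟩

theorem iota_alg (hW : W ≤ nonZeroDivisors A) (a : A) :
    iota hW (algebraMap A _ a) = algebraMap A _ a := IsLocalization.lift_eq _ _

theorem iota_inj (hW : W ≤ nonZeroDivisors A) : Function.Injective (iota hW) :=
  (IsLocalization.lift_injective_iff _).2 fun _ _ =>
    (IsLocalization.injective _ hW).eq_iff.trans (IsFractionRing.injective A _).eq_iff.symm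

theorem iota_den (hW : W ≤ nonZeroDivisors A) {ι : Type} [Finite ι] (k : ι → FractionRing A) :
    ∃ s, s ≠ 0 ∧ ∃ c : ι → Localization W, ∀ a, iota hW (c a) = iota hW s * k a := by
  obtain ⟨b, hb⟩ := IsLocalization.exist_integer_multiples_of_finite (nonZeroDivisors A) k
  choose c hc using hb
  exact ⟨algebraMap A _ b, fun h => nonZeroDivisors.ne_zero b.2
    (IsLocalization.injective (Localization W) hW (h.trans (map_zero _).symm)),
    fun a => algebraMap A _ (c a), fun a => by rw [iota_alg, iota_alg, hc, Algebra.smul_def]⟩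

/-- A quotient of two elements of `W`. -/
def U (W : Submonoid A) (y : FractionRing A) : Prop :=
  ∃ a ∈ W, ∃ b ∈ W, y * algebraMap A _ b = algebraMap A _ a

theorem U.unit (hW : W ≤ nonZeroDivisors A) {z : Localization W} (h : U W (iota hW z)) :
    IsUnit z := by
  obtain ⟨a, ha, b, hb, h⟩ := h
  rw [← iota_alg hW, ← iota_alg hW, ← map_mul, (iota_inj hW).eq_iff] at h
  exact isUnit_of_mul_isUnit_left (h ▸ IsLocalization.map_units (Localization W) ⟨a, ha⟩)

theorem U.of_unit (hW : W ≤ nonZeroDivisors A) (hs : ∀ a b, a * b ∈ W → a ∈ W)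
    {z : Localization W} (h : IsUnit z) : U W (iota hW z) := by
  obtain ⟨z', hz⟩ := h.exists_right_inv
  obtain ⟨⟨a, m⟩, h1⟩ := IsLocalization.surj W z
  obtain ⟨⟨a', m'⟩, h2⟩ := IsLocalization.surj W z'
  have h3 : a * a' = m * m' := IsLocalization.injective (Localization W) hW (by
    simp only [map_mul] at h1 h2 ⊢
    rw [← h1, ← h2, mul_mul_mul_comm, hz, one_mul])
  refine ⟨a, hs a a' (h3 ▸ W.mul_mem m.2 m'.2), m, m.2, ?_⟩
  rw [← iota_alg hW, ← iota_alg hW, ← map_mul, h1]

/-- The run over the fraction field. -/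
noncomputable def krun (M : Prog σ S) (φ : ℂ → A) (x : σ → A) (t : ℕ) :
    M.Q × (Fin S → FractionRing A) :=
  grun M (algebraMap A _ ∘ φ) (algebraMap A _ ∘ x) t

/-- All values before time `T` are zero or quotients of elements of `W`. -/
def Good (W : Submonoid A) (M : Prog σ S) (φ : ℂ → A) (x : σ → A) (T : ℕ) : Prop :=
  ∀ s < T, ∀ k, (krun M φ x s).2 k = 0 ∨ U W ((krun M φ x s).2 k)

/-- The run over the localization. -/
noncomputable def orun (W : Submonoid A) (M : Prog σ S) (φ : ℂ → A) (x : σ → A) (t : ℕ) :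
    M.Q × (Fin S → Localization W) :=
  grun M (algebraMap A _ ∘ φ) (algebraMap A _ ∘ x) t

theorem krun_eq (hW : W ≤ nonZeroDivisors A) {M : Prog σ S} {φ : ℂ → A} {x : σ → A} {T : ℕ}
    (h : ∀ s < T, ∀ k, (orun W M φ x s).2 k = 0 ∨ IsUnit ((orun W M φ x s).2 k)) :
    krun M φ x T = ((orun W M φ x T).1, iota hW ∘ (orun W M φ x T).2) := by
  rw [orun, ← grun_map (iota hW) M _ _ T h, krun]
  congr 1 <;> exact funext fun _ => (iota_alg hW _).symm

theorem Good.orun (hW : W ≤ nonZeroDivisors A) {M : Prog σ S} {φ : ℂ → A} {x : σ → A} {T : ℕ}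
    (h : Good W M φ x T) :
    ∀ s < T, ∀ k, (orun W M φ x s).2 k = 0 ∨ IsUnit ((orun W M φ x s).2 k) := by
  induction T with
  | zero => simp
  | succ T ih =>
    have ih := ih fun s hs => h s (by omega)
    intro s hs k
    rcases Nat.lt_succ_iff_lt_or_eq.1 hs with hs | rfl
    · exact ih s hs k
    · have := h s (by omega) k
      rw [krun_eq hW ih] at this
      exact this.imp (fun e => iota_inj hW (e.trans (map_zero _).symm)) (U.unit hW)

theorem Good.at_eq (ψ : A →+* ℂ) {M : Prog σ S} {φ : ℂ → A} (hφ : ∀ c, ψ (φ c) = c) {x : σ → A}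
    {T : ℕ} (h : Good ((nonZeroDivisors ℂ).comap ψ) M φ x T) {t : ℕ} (ht : t ≤ T) :
    M.label (ψ ∘ x) t = M.cmd (krun M φ x t).1 := by
  have hW : (nonZeroDivisors ℂ).comap ψ ≤ nonZeroDivisors A := fun a ha =>
    mem_nonZeroDivisors_iff_ne_zero.2 fun e =>
      mem_nonZeroDivisors_iff_ne_zero.1 ha (by rw [e, map_zero])
  have h1 := fun s (hs : s < t) => h.orun hW s (by omega)
  let χ : Localization ((nonZeroDivisors ℂ).comap ψ) →+* ℂ :=
    IsLocalization.lift (M := (nonZeroDivisors ℂ).comap ψ) (g := ψ) fun m =>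
      (mem_nonZeroDivisors_iff_ne_zero.1 m.2).isUnit
  have h2 := grun_map χ M _ _ t h1
  rw [show χ ∘ algebraMap A _ ∘ φ = id from funext fun c => by simp [χ, hφ],
    show χ ∘ algebraMap A _ ∘ x = ψ ∘ x from funext fun c => by simp [χ]] at h2
  rw [H26.at_eq, h2, krun_eq hW h1]
  rfl

theorem avoid_fin {ι : Type} [Countable ι] (n : ℕ) (p : ι → MvPolynomial (Fin n) ℂ)
    (hp : ∀ i, p i ≠ 0) : ∃ z, ∀ i, eval z (p i) ≠ 0 := by
  induction n with
  | zero =>
    refine ⟨0, fun i h => hp i ?_⟩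
    rw [eq_C_of_isEmpty (p i)] at h ⊢
    rw [eval_C] at h
    rw [h, map_zero]
  | succ n ih =>
    obtain ⟨s, hs⟩ := ih (fun i => (finSuccEquiv ℂ n (p i)).leadingCoeff) fun i =>
      Polynomial.leadingCoeff_ne_zero.2 ((map_ne_zero_iff _ (finSuccEquiv ℂ n).injective).2 (hp i))
    have h1 : ∀ i, (finSuccEquiv ℂ n (p i)).map (eval s) ≠ 0 := fun i h => hs i (by
      rw [Polynomial.leadingCoeff, ← Polynomial.coeff_map, h, Polynomial.coeff_zero])
    have h2 : (⋃ i, {y | ((finSuccEquiv ℂ n (p i)).map (eval s)).IsRoot y}).Countable :=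
      Set.countable_iUnion fun i => (Polynomial.finite_setOfPred_isRoot (h1 i)).countable
    obtain ⟨y, hy⟩ : ∃ y, y ∉ ⋃ i, {y | ((finSuccEquiv ℂ n (p i)).map (eval s)).IsRoot y} := by
      by_contra H
      push Not at H
      have : Uncountable ℂ := Complex.ofReal_injective.uncountable
      exact Set.not_countable_univ (h2.mono fun y _ => H y)
    exact ⟨Fin.cons y s, fun i h => hy (Set.mem_iUnion.2 ⟨i, by
      rwa [eval_eq_eval_mv_eval'] at h⟩)⟩

theorem exists_point {τ : Type} [Fintype τ] (ρ : MvPolynomial τ ℂ →+* MvPolynomial τ ℂ)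
    {ι : Type} [Countable ι] (y : ι → FractionRing (MvPolynomial τ ℂ))
    (h : ∀ i, y i = 0 ∨ U ((nonZeroDivisors _).comap ρ) (y i)) :
    ∃ z : τ → ℂ, ∀ i, y i = 0 ∨ U ((nonZeroDivisors ℂ).comap ((eval z).comp ρ)) (y i) := by
  have h1 : ∀ i, ∃ a b : MvPolynomial τ ℂ, ρ a * ρ b ≠ 0 ∧
      (y i = 0 ∨ y i * algebraMap _ _ b = algebraMap _ _ a) := fun i => by
    rcases h i with e | ⟨a, ha, b, hb, e⟩
    · exact ⟨1, 1, by simp, .inl e⟩
    · exact ⟨a, b, mul_ne_zero (mem_nonZeroDivisors_iff_ne_zero.1 ha)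
        (mem_nonZeroDivisors_iff_ne_zero.1 hb), .inr e⟩
  choose a b hab hy using h1
  obtain ⟨z, hz⟩ := avoid_fin _ (fun i => rename (Fintype.equivFin τ) (ρ (a i) * ρ (b i))) fun i =>
    (map_ne_zero_iff _ (rename_injective _ (Fintype.equivFin τ).injective)).2 (hab i)
  refine ⟨z ∘ Fintype.equivFin τ, fun i => (hy i).imp id fun e => ?_⟩
  have := hz i
  rw [eval_rename, map_mul, mul_ne_zero_iff] at this
  exact ⟨_, mem_nonZeroDivisors_iff_ne_zero.2 this.1, _, mem_nonZeroDivisors_iff_ne_zero.2 this.2, e⟩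

end Pool.Agent.MP_57f271_lc.H26
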