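import Pool.Agent.MP_57f271_lc.H26.Alg
import Pool.Agent.MP_57f271_lc.H26.Run

/-!
The read bound for programs testing whether `ff` vanishes.
-/

set_option autoImplicit false

namespace Pool.Agent.MP_57f271_lc.H26

open Pool.Agent.MP_57f271_lc.H18 MvPolynomial Finset TrivSqZeroExt Classical

variable {j v S : ℕ} {Γ σ : Type} [Fintype Γ] {gen : σ → AA j v Γ} {lab : σ → Option (Vr j v Γ)}

/-- Step `t` of the generic run reads a coefficient of the block `g`. -/
def blk (gen : σ → AA j v Γ) (lab : σ → Option (Vr j v Γ)) (M : Prog σ S) (g : Γ) (t : ℕ) : Prop :=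
  ∃ s k q x, M.cmd (krun M C gen t).1 = .read s k q ∧ lab s = some (.inr (g, x))

theorem bad_bound (hgen : ∀ s, ∃ c, gen s = (lab s).elim 0 X + C c) (M : Prog σ S) (g₀ : Γ)
    {t : ℕ} (h2 : Good (MM j v g₀) M C gen t) {k : Fin S}
    (hk : ¬ ((krun M C gen t).2 k = 0 ∨ U (MM j v g₀) ((krun M C gen t).2 k))) (g : Γ) :
    v ^ j ≤ (S + 1) ^ j + ((range t).filter (blk gen lab M g)).card * (4 * mu S j 1) := by
  have h3 := h2.orun (MM_le g₀)
  have h4 : ∀ s ≤ t, krun M C gen s = _ := fun s hs =>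
    krun_eq (MM_le g₀) fun s' hs' => h3 s' (by omega)
  obtain ⟨F, hN, hB, hF⟩ := alg_main (j := j) (v := v) g₀ g (iota_inj (MM_le g₀))
    (iota_den (MM_le g₀))
  obtain ⟨W, hW, hD⟩ := Fam.tan_run hN hB (fun s => (orun (MM j v g₀) M C gen s).2) rfl
    (blk gen lab M g) t (by
      rintro s hs ⟨a, i, q, x, e, hl⟩
      rw [h4 s hs.le] at e
      obtain ⟨c, hc⟩ := hgen a
      simp only [orun, grun_succ]
      refine ⟨i, (step_read M _ _ (orun (MM j v g₀) M C gen s) e).imp_left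
        fun e => ⟨x, c, e.trans ?_⟩⟩
      rw [Function.comp_apply, hc, hl]
      rfl) (by
      intro s hs hb k
      simp only [orun, grun_succ]
      refine step_cl M _ _ _ (h3 s hs) (fun a => .inl ⟨a, rfl⟩) (fun a i q e => ?_) k
      obtain ⟨c, hc⟩ := hgen a
      rcases hl : lab a with _ | u
      · exact .inl ⟨c, by simp [hc, hl]⟩
      · refine .inr ⟨u, c, fun x hx => hb ⟨a, i, q, x, ?_, by rw [hl, hx]⟩, by simp [hc, hl]⟩
        rw [h4 s hs.le]
        exact e) k
  rw [h4 t le_rfl, not_or] at hk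
  refine (hF _ (fun e => hk.1 ?_) (fun e => hk.2 ?_) W hD).trans hW
  · simp only [Function.comp_apply, e, map_zero]
  · exact U.of_unit (MM_le g₀) (fun a b h => mem_MM.2 (left_ne_zero_of_mul (by
      simpa only [mem_MM, map_mul] using h))) e

theorem sum_blk (M : Prog σ S) {t T : ℕ} (hT : t ≤ T) {x : σ → ℂ}
    (h : ∀ s < t, M.label x s = M.cmd (krun M C gen s).1) :
    ∑ g, ((range t).filter (blk gen lab M g)).card ≤ M.reads x T := by
  rw [← card_biUnion, Prog.reads, ← Set.ncard_coe_finset]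
  · refine Set.ncard_le_ncard (fun t ht => ?_) ((Set.finite_lt_nat T).subset fun t ht => ht.1)
    simp only [coe_biUnion, Set.mem_iUnion, mem_coe, mem_filter, mem_range] at ht
    obtain ⟨g, -, ht, s, k, q, -, e, -⟩ := ht
    exact ⟨by omega, s, k, q, (h t ht).trans e⟩
  · intro g _ g' _ hg
    refine disjoint_left.2 fun t h1 h2 => hg ?_
    obtain ⟨-, s, k, q, x, e, hl⟩ := mem_filter.1 h1
    obtain ⟨-, s', k', q', x', e', hl'⟩ := mem_filter.1 h2
    rw [e] at e'
    cases e'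
    rw [hl] at hl'
    cases hl'
    rfl

theorem core (g₀ : Γ) (hgen : ∀ s, ∃ c, gen s = (lab s).elim 0 X + C c)
    {Ω : Type} [Countable Ω] (M : Ω → Prog σ S) :
    ∃ z y : Vr j v Γ → ℂ, eval z (ff j v Γ) ≠ 0 ∧ eval y (ff j v Γ) = 0 ∧ ∀ ω T,
      (M ω).label (eval z ∘ gen) T = (M ω).label (eval y ∘ gen) T ∨ ∀ x, x = z ∨ x = y →
        Fintype.card Γ * v ^ j ≤
          Fintype.card Γ * (S + 1) ^ j + (M ω).reads (eval x ∘ gen) T * (4 * mu S j 1) := by
  obtain ⟨z, hz⟩ := exists_point (RingHom.id (AA j v Γ)) (ι := Option (Ω × ℕ × Fin S))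
    (fun i => i.elim (algebraMap _ _ (ff j v Γ)) fun i => (krun (M i.1) C gen i.2.1).2 i.2.2)
    fun i => by
      generalize Option.elim i _ _ = y
      obtain ⟨⟨a, m⟩, h⟩ := IsLocalization.surj (nonZeroDivisors (AA j v Γ)) y
      by_cases ha : a = 0
      · rw [ha, map_zero] at h
        exact .inl ((IsLocalization.map_units _ m).mul_left_eq_zero.1 h)
      · exact .inr ⟨a, mem_nonZeroDivisors_iff_ne_zero.2 ha, m, m.2, h⟩
  rw [RingHom.comp_id] at hz
  have h0 : ∀ ω t, (M ω).label (eval z ∘ gen) t = (M ω).cmd (krun (M ω) C gen t).1 :=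
    fun ω t => Good.at_eq (φ := C) (eval z) (by simp)
      (fun s _ k => by simpa only [Option.elim_some] using hz (some (ω, s, k))) le_rfl
  obtain ⟨y, hy⟩ := exists_point (rho j v g₀)
    (ι := {i : Ω × ℕ × Fin S // (krun (M i.1) C gen i.2.1).2 i.2.2 = 0 ∨
      U (MM j v g₀) ((krun (M i.1) C gen i.2.1).2 i.2.2)})
    (fun i => (krun (M i.1.1) C gen i.1.2.1).2 i.1.2.2) fun i => i.2
  have e : (eval y).comp (rho j v g₀) = eval fun u => eval y (sb g₀ u) :=
    MvPolynomial.ringHom_ext (by simp [rho]) (by simp [rho])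
  rw [e] at hy
  have h2 : ∀ ω t, Good (MM j v g₀) (M ω) C gen t → ∀ s ≤ t,
      (M ω).label (eval (fun u => eval y (sb g₀ u)) ∘ gen) s =
      (M ω).cmd (krun (M ω) C gen s).1 := fun ω t hg s hs =>
    Good.at_eq _ (by simp) (fun s hs k => hy ⟨(ω, s, k), hg s hs k⟩) hs
  refine ⟨z, fun u => eval y (sb g₀ u), fun e => ?_,
    by rw [← e, RingHom.comp_apply, rho_f, map_zero], fun ω T => ?_⟩
  · rcases hz none with h | ⟨a, ha, c, -, h⟩
    · exact ff_ne g₀ (IsFractionRing.injective _ (FractionRing _) (h.trans (map_zero _).symm))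
    · simp only [Option.elim_none, ← map_mul, (IsFractionRing.injective _ _).eq_iff] at h
      exact mem_nonZeroDivisors_iff_ne_zero.1 ha (by rw [← h, map_mul, e, zero_mul])
  have h : ∃ t, t = T ∨ ∃ k,
    ¬ ((krun (M ω) C gen t).2 k = 0 ∨ U (MM j v g₀) ((krun (M ω) C gen t).2 k)) := ⟨T, .inl rfl⟩
  have ht : Nat.find h ≤ T := Nat.find_min' h (.inl rfl)
  have hg : Good (MM j v g₀) (M ω) C gen (Nat.find h) :=
    fun s hs k => by_contra fun e => Nat.find_min h hs (.inr ⟨k, e⟩)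
  refine (Nat.find_spec h).imp (fun h => (h0 ω T).trans (h2 ω _ hg T h.ge).symm)
    fun ⟨k, hk⟩ x hx => ?_
  have h3 := sum_le_sum fun g (_ : g ∈ (univ : Finset Γ)) => bad_bound hgen (M ω) g₀ hg hk g
  rw [sum_add_distrib, ← sum_mul, sum_const, sum_const, card_univ, smul_eq_mul, smul_eq_mul] at h3
  refine h3.trans (Nat.add_le_add_left (Nat.mul_le_mul_right _ (sum_blk _ ht ?_)) _)
  rcases hx with rfl | rfl
  · exact fun s _ => h0 ω s
  · exact fun s hs => h2 ω _ hg s hs.le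

end Pool.Agent.MP_57f271_lc.H26
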