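import Pool.Agent.MP_57f271_lc.H18.Defs

namespace Pool.Agent.MP_57f271_lc.H26

open Pool.Agent.MP_57f271_lc.H18

/-- The label of a node of a program with input places `σ`, nodes `Q` and `S` registers. -/
inductive Cmd (σ Q : Type) (S : ℕ) : Type
  | read (s : σ) (k : Fin S) (next : Q)
  | const (c : ℂ) (k : Fin S) (next : Q)
  | arith (o : Op) (i j k : Fin S) (next : Q)
  | branch (i : Fin S) (yes no : Q)
  | output (answer : Bool)

/-- A program: any set of nodes, a first node, and a label for each node. -/
structure Prog (σ : Type) (S : ℕ) : Type 1 where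
  Q : Type
  start : Q
  cmd : Q → Cmd σ Q S

open Classical in
/-- One step on the input `x` from a pair (node, registers). -/
noncomputable def Prog.step {σ : Type} {S : ℕ} (M : Prog σ S) (x : σ → ℂ)
    (c : M.Q × (Fin S → ℂ)) : M.Q × (Fin S → ℂ) :=
  match M.cmd c.1 with
  | .read s k next => (next, Function.update c.2 k (x s))
  | .const a k next => (next, Function.update c.2 k a)
  | .arith o i j k next => (next, Function.update c.2 k (o.eval (c.2 i) (c.2 j)))
  | .branch i yes no => (if c.2 i = 0 then yes else no, c.2)
  | .output _ => c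

/-- The label of the node reached after `t` steps on the input `x`; registers start at `0`. -/
noncomputable def Prog.label {σ : Type} {S : ℕ} (M : Prog σ S) (x : σ → ℂ) (t : ℕ) : Cmd σ M.Q S :=
  M.cmd ((M.step x)^[t] (M.start, 0)).1

/-- The number of read steps among the first `T` steps on the input `x`. -/
noncomputable def Prog.reads {σ : Type} {S : ℕ} (M : Prog σ S) (x : σ → ℂ) (T : ℕ) : ℕ :=
  Set.ncard {t | t < T ∧ ∃ s k q, M.label x t = .read s k q}

/-- The coefficient list of a system. -/
noncomputable def coeffs {n k : ℕ} (d : Fin k → ℕ) (f : Fin k → MvPolynomial (Fin n) ℂ) :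
    Slot n k d → ℂ :=
  fun s => MvPolynomial.coeff s.2.1 (f s.1)

/-- For every countable family of programs with `S` registers there are an infeasible and a
feasible system of degrees `d` such that each program of the family, at each time `T`, has the same
label on both systems or has made at least `L` reads on each of them. -/
def Hard (n k : ℕ) (d : Fin k → ℕ) (S : ℕ) (L : ℝ) : Prop :=
  ∀ (Ω : Type) [Countable Ω] (M : Ω → Prog (Slot n k d) S),
    ∃ f g : Fin k → MvPolynomial (Fin n) ℂ, (System.mk n k f).deg = d ∧ (System.mk n k g).deg = d ∧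
      ¬ (System.mk n k f).Feasible ∧ (System.mk n k g).Feasible ∧
      ∀ ω T, (M ω).label (coeffs d f) T = (M ω).label (coeffs d g) T ∨
        (L ≤ (M ω).reads (coeffs d f) T ∧ L ≤ (M ω).reads (coeffs d g) T)

end Pool.Agent.MP_57f271_lc.H26
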