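import Pool.Agent.MP_57f271_lc.H26.Tan

/-!
Ring maps from a localized polynomial ring to dual numbers over a nilpotent thickening.
-/

set_option autoImplicit false

namespace Pool.Agent.MP_57f271_lc.H26

open MvPolynomial Finset TrivSqZeroExt

theorem dvd_prod_sub {R ι : Type} [CommRing R] {t : R} {x y : ι → R} (s : Finset ι)
    (h : ∀ i, t ∣ x i - y i) : t ∣ ∏ i ∈ s, x i - ∏ i ∈ s, y i := by
  classical
  induction s using Finset.induction_on with
  | empty => simp
  | insert a s ha ih =>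
    rw [prod_insert ha, prod_insert ha, show x a * ∏ i ∈ s, x i - y a * ∏ i ∈ s, y i =
      x a * (∏ i ∈ s, x i - ∏ i ∈ s, y i) + (x a - y a) * ∏ i ∈ s, y i by ring]
    exact dvd_add (ih.mul_left _) ((h a).mul_right _)

theorem exists_prim {O K V ι : Type} [CommRing O] [IsDomain O] [WfDvdMonoid O] [Field K]
    [AddCommGroup V] [Module K V] [Fintype ι] {κ : O →+* K} (hκ : Function.Injective κ)
    (hd : ∀ k : ι → K, ∃ s : O, s ≠ 0 ∧ ∃ c : ι → O, ∀ a, κ (c a) = κ s * k a) {w : ι → V}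
    (hw : ¬ LinearIndependent K w) {f : O} (h0 : f ≠ 0) (hf : ¬ IsUnit f) :
    ∃ c : ι → O, ∑ a, κ (c a) • w a = 0 ∧ ∃ a, ¬ f ∣ c a := by
  by_contra H
  push Not at H
  have key : ∀ (n : ℕ) (c : ι → O), ∑ a, κ (c a) • w a = 0 → ∀ a, f ^ n ∣ c a := by
    intro n
    induction n with
    | zero => simp
    | succ n ih =>
      intro c hc a
      choose c' hc' using H c hc
      rw [hc' a, pow_succ']
      refine mul_dvd_mul_left f (ih c' ((smul_eq_zero_iff_right
        ((map_ne_zero_iff κ hκ).2 h0)).1 ?_) a)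
      rw [← hc, smul_sum]
      exact sum_congr rfl fun b _ => by rw [hc' b, map_mul, mul_smul]
  obtain ⟨k, hk, a, ha⟩ := Fintype.not_linearIndependent_iff.1 hw
  obtain ⟨s, hs, c, hc⟩ := hd k
  have h1 : c a ≠ 0 := fun e => mul_ne_zero ((map_ne_zero_iff κ hκ).2 hs) ha
    (by rw [← hc, e, map_zero])
  obtain ⟨n, b, h1, h2⟩ := WfDvdMonoid.max_power_factor' h1 hf
  have h3 := key (n + 1) c (by simp only [hc, mul_smul, ← smul_sum, hk, smul_zero]) a
  rw [h2, pow_succ, mul_dvd_mul_iff_left (pow_ne_zero n h0)] at h3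
  exact h1 h3

/-- Dual numbers are functorial in the ring. -/
def dmap {R R' : Type} [CommRing R] [CommRing R'] (ψ : R →+* R') :
    DualNumber R →+* DualNumber R' where
  toFun x := inl (ψ x.fst) + inr (ψ x.snd)
  map_one' := by ext <;> simp
  map_mul' x y := by ext <;> simp
  map_zero' := by ext <;> simp
  map_add' x y := by ext <;> simp

variable {σ O R : Type} [CommRing O] [Algebra (MvPolynomial σ ℂ) O] [CommRing R]

/-- The image of a polynomial. -/
noncomputable abbrev al (O : Type) [CommRing O] [Algebra (MvPolynomial σ ℂ) O] :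
    MvPolynomial σ ℂ →+* O := algebraMap (MvPolynomial σ ℂ) O

theorem hom_ext (M : Submonoid (MvPolynomial σ ℂ)) [IsLocalization M O] {T : Type} [CommRing T]
    {F G : O →+* T} 
    (hC : ∀ c : ℂ, F (al O (C c : MvPolynomial σ ℂ)) = G (al O (C c : MvPolynomial σ ℂ)))
    (hX : ∀ u : σ, F (al O (X u)) = G (al O (X u))) : F = G :=
  IsLocalization.ringHom_ext M (MvPolynomial.ringHom_ext hC hX)

/-- `Θ` moves the variable `u` by `e u + ε * d u`. -/
structure IsTh (o : O →+* R) (e d : σ → R) (Θ : O →+* DualNumber R) : Prop where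
  hC : ∀ c : ℂ, Θ (al O (C c : MvPolynomial σ ℂ)) = inl (o (al O (C c : MvPolynomial σ ℂ)))
  hX : ∀ u : σ, Θ (al O (X u)) = inl (o (al O (X u)) + e u) + inr (d u)

variable (M : Submonoid (MvPolynomial σ ℂ)) [IsLocalization M O] {o : O →+* R}

include M

theorem exists_th {r : R} (hr : IsNilpotent r) {e : σ → R} (he : ∀ u, r ∣ e u) (d : σ → R) :
    ∃ Θ, IsTh o e d Θ := by
  let ψ : MvPolynomial σ ℂ →+* DualNumber R :=
    eval₂Hom ((inlHom R R).comp (o.comp ((al (σ := σ) O).comp C)))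
      fun u => inl (o (al O (X u)) + e u) + inr (d u)
  have h1 : ∀ a, r ∣ (ψ a).fst - o (al O a) := fun a => by
    induction a using MvPolynomial.induction_on with
    | C c => simp [ψ]
    | add p q hp hq =>
      simp only [map_add, fst_add]
      exact add_sub_add_comm (ψ p).fst _ _ _ ▸ dvd_add hp hq
    | mul_X p u hp =>
      have : (ψ (X u)).fst = o (al O (X u)) + e u := by simp [ψ]
      simp only [map_mul, fst_mul, this]
      rw [show (ψ p).fst * (o (al O (X u)) + e u) - o (al O p) * o (al O (X u)) =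
        ((ψ p).fst - o (al O p)) * o (al O (X u)) + (ψ p).fst * e u by ring]
      exact dvd_add (hp.mul_right _) ((he u).mul_left _)
  have h2 : ∀ m : M, IsUnit (ψ m) := fun m => by
    obtain ⟨c, hc⟩ := h1 m
    rw [isUnit_iff_isUnit_fst, eq_add_of_sub_eq hc]
    exact ((Commute.all r c).isNilpotent_mul_right hr).isUnit_add_right_of_commute
      ((IsLocalization.map_units O m).map o) (Commute.all _ _)
  exact ⟨IsLocalization.lift h2, fun c => by simp [ψ], fun u => by simp [ψ]⟩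

theorem IsTh.dvd {r : R} {e d : σ → R} {Θ : O →+* DualNumber R} (h : IsTh o e d Θ)
    (he : ∀ u, r ∣ e u) (z : O) : r ∣ (Θ z).fst - o z := by
  let I : Ideal R := Ideal.span {r}
  have : (Ideal.Quotient.mk I).comp ((fstHom R R R).toRingHom.comp Θ) =
      (Ideal.Quotient.mk I).comp o := by
    refine hom_ext (T := R ⧸ I) M (fun c => ?_) fun u => ?_
    · simp [h.hC]
    · exact Ideal.Quotient.eq.2 (Ideal.mem_span_singleton.2 (by simpa [h.hX] using he u))
  exact Ideal.mem_span_singleton.1 (Ideal.Quotient.eq.1 (RingHom.congr_fun this z))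

theorem IsTh.fst_eq {e d d' : σ → R} {Θ Θ' : O →+* DualNumber R} (h : IsTh o e d Θ)
    (h' : IsTh o e d' Θ') (z : O) : (Θ z).fst = (Θ' z).fst := by
  have : (fstHom R R R).toRingHom.comp Θ = (fstHom R R R).toRingHom.comp Θ' :=
    hom_ext M (fun c => by simp [h.hC, h'.hC]) fun u => by simp [h.hX, h'.hX]
  exact RingHom.congr_fun this z

theorem IsTh.snd_eq {R' T : Type} [CommRing R'] [CommRing T] {o' : O →+* R'} {e d : σ → R}
    {e' d' : σ → R'} {Θ : O →+* DualNumber R} {Θ' : O →+* DualNumber R'} (h : IsTh o e d Θ)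
    (h' : IsTh o' e' d' Θ') {ψ : R →+* T} {ψ' : R' →+* T} (ho : ∀ z, ψ (o z) = ψ' (o' z))
    (he : ∀ u, ψ (e u) = ψ' (e' u)) (hd : ∀ u, ψ (d u) = ψ' (d' u)) (z : O) :
    ψ (Θ z).snd = ψ' (Θ' z).snd := by
  have : (dmap ψ).comp Θ = (dmap ψ').comp Θ' :=
    hom_ext M (fun c => by simp [dmap, h.hC, h'.hC, ho])
      fun u => by simp [dmap, h.hX, h'.hX, ho, he, hd]
  simpa [dmap] using congrArg snd (RingHom.congr_fun this z)

theorem exists_grad {ι : Type} [Fintype ι] {D : σ → ι → O} {e : σ → R}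
    {Θ : (ι → O) → O →+* DualNumber R} (h : ∀ c, IsTh o e (fun u => o (∑ a, c a * D u a)) (Θ c))
    (z : O) : ∃ w : ι → R, ∀ c, (Θ c z).snd = ∑ a, o (c a) * w a := by
  have key : ∀ a : MvPolynomial σ ℂ, ∃ w : ι → R,
      ∀ c, (Θ c (al O a)).snd = ∑ a, o (c a) * w a := fun a => by
    induction a using MvPolynomial.induction_on with
    | C c => exact ⟨0, fun c' => by simp [(h c').hC]⟩
    | add p q hp hq =>
      obtain ⟨w, hw⟩ := hp
      obtain ⟨w', hw'⟩ := hq
      exact ⟨w + w', fun c => by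
        rw [map_add, map_add, snd_add, hw c, hw' c, ← sum_add_distrib]
        simp only [Pi.add_apply, mul_add]⟩
    | mul_X p u hp =>
      obtain ⟨w, hw⟩ := hp
      refine ⟨fun a => (Θ 0 (al O p)).fst * o (D u a) + w a * (Θ 0 (al O (X u))).fst, fun c => ?_⟩
      rw [map_mul, map_mul, DualNumber.snd_mul, hw c, (h c).fst_eq M (h 0), (h c).fst_eq M (h 0),
        (h c).hX]
      simp only [snd_add, snd_inl, snd_inr, zero_add, map_mul, map_sum, mul_sum, sum_mul,
        ← sum_add_distrib]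
      exact sum_congr rfl fun a _ => by ring
  obtain ⟨⟨a, m⟩, hz⟩ := IsLocalization.surj M z
  obtain ⟨u, hu⟩ := IsLocalization.map_units O m
  obtain ⟨w, hw⟩ := key a
  obtain ⟨w', hw'⟩ := key m
  refine ⟨fun i => (w i - (Θ 0 z).fst * w' i) * (Θ 0 ↑u⁻¹).fst, fun c => ?_⟩
  have h1 := congrArg (fun x => (Θ c x).snd) hz
  simp only [map_mul, DualNumber.snd_mul, hw c, hw' c, (h c).fst_eq M (h 0)] at h1
  rw [← hu] at h1
  have h2 : (Θ 0 u).fst * (Θ 0 ↑u⁻¹).fst = 1 := by
    rw [← fst_mul, ← map_mul, Units.mul_inv, map_one, fst_one]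
  have h3 : ∑ i, o (c i) * ((w i - (Θ 0 z).fst * w' i) * (Θ 0 ↑u⁻¹).fst) =
      (∑ i, o (c i) * w i - (Θ 0 z).fst * ∑ i, o (c i) * w' i) * (Θ 0 ↑u⁻¹).fst := by
    simp only [mul_sum, sum_mul, ← sum_sub_distrib]
    exact sum_congr rfl fun a _ => by ring
  rw [h3]
  linear_combination (Θ 0 ↑u⁻¹).fst * h1 - (Θ c z).snd * h2

end Pool.Agent.MP_57f271_lc.H26
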