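import Mathlib

/-!
Dimension counts for subalgebras of a nilpotent thickening.
-/

set_option autoImplicit false
set_option linter.unusedSectionVars false

namespace Pool.Agent.MP_57f271_lc.H26

open MvPolynomial Finset Module Submodule

theorem card_mon (n d : ℕ) : Nat.card {e : Fin n →₀ ℕ // e.degree ≤ d} = (n + d).choose d := by
  have h := card_finsuppAntidiag_nat_eq_choose (s := (univ : Finset (Option (Fin n)))) d
  rw [card_univ, Fintype.card_option, Fintype.card_fin, show n + 1 + d - 1 = n + d by omega,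
    ← Fintype.card_coe, ← Nat.card_eq_fintype_card] at h
  rw [← h]
  have h1 : ∀ f : finsuppAntidiag (univ : Finset (Option (Fin n))) d,
      f.1 none + f.1.some.degree = d := fun f => by
    simpa [Finsupp.degree_eq_sum] using (mem_finsuppAntidiag.1 f.2).1
  exact Nat.card_congr
    { toFun e := ⟨e.1.optionElim (d - e.1.degree), mem_finsuppAntidiag.2 ⟨by
        have := e.2
        simp only [Finsupp.degree_eq_sum] at this ⊢
        simp only [Fintype.sum_option, Finsupp.optionElim_apply_none,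
          Finsupp.optionElim_apply_some]
        omega, subset_univ _⟩⟩
      invFun f := ⟨f.1.some, by have := h1 f; omega⟩
      left_inv e := Subtype.ext (Finsupp.some_optionElim _ _)
      right_inv f := Subtype.ext (by
        have := h1 f
        simp only [show d - f.1.some.degree = f.1 none by omega, Finsupp.optionElim_some]) }

theorem finite_mon (n d : ℕ) : Finite {e : Fin n →₀ ℕ // e.degree ≤ d} :=
  Nat.finite_of_card_ne_zero (by rw [card_mon]; exact (Nat.choose_pos (by omega)).ne')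

/-- A bound for the number of monomials of degree at most `j - i`. -/
def mu (S j i : ℕ) : ℕ := if i ≤ j then (S + 1) ^ (j - i) else 0

theorem mu_succ (S j i : ℕ) : (S + 1) * mu S j (i + 1) ≤ mu S j i := by
  unfold mu
  split_ifs with h1 h2
  · rw [← pow_succ', show j - (i + 1) + 1 = j - i by omega]
  · omega
  · simp
  · simp

theorem card_mu (S j i : ℕ) : Finite {e : Fin S →₀ ℕ // e.degree + i ≤ j} ∧
    Nat.card {e : Fin S →₀ ℕ // e.degree + i ≤ j} ≤ mu S j i := by
  unfold mu
  split_ifs with h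
  · simp only [← Nat.le_sub_iff_add_le h]
    exact ⟨finite_mon _ _, card_mon _ _ ▸ Nat.choose_add_le_add_one_pow _ _⟩
  · have : IsEmpty {e : Fin S →₀ ℕ // e.degree + i ≤ j} := ⟨fun e => by have := e.2; omega⟩
    exact ⟨inferInstance, by simp⟩

variable {K R : Type} [Field K] [CommRing R] [Algebra K R] [Module.Finite K R] {S j : ℕ} {t : R}

theorem exists_compl {ι : Type} (U : Submodule K R) (d : ι → R) (s : Finset ι) :
    ∃ s' : Finset ι, s'.card + finrank K U ≤ finrank K ↥(U ⊔ span K (d '' s)) ∧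
      ∀ i ∈ s, d i ∈ U ⊔ span K (d '' s') := by
  classical
  induction s using Finset.induction_on with
  | empty => exact ⟨∅, by simpa only [card_empty, zero_add] using
      Submodule.finrank_mono le_sup_left, by simp⟩
  | insert a s ha ih =>
    obtain ⟨s', h1, h2⟩ := ih
    have h3 : U ⊔ span K (d '' s) ≤ U ⊔ span K (d '' (insert a s : Finset ι)) :=
      sup_le_sup_left (span_mono (Set.image_mono (by simp))) _
    by_cases h : d a ∈ U ⊔ span K (d '' s')
    · exact ⟨s', h1.trans (Submodule.finrank_mono h3), forall_mem_insert _ _ _ |>.2 ⟨h, h2⟩⟩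
    · have h4 : U ⊔ span K (d '' s) ≤ U ⊔ span K (d '' s') :=
        sup_le le_sup_left (span_le.2 (Set.image_subset_iff.2 h2))
      have h5 := finrank_lt_finrank_of_lt (lt_of_le_of_ne h3 fun e => h (h4 (e ▸
        mem_sup_right (subset_span ⟨a, by simp, rfl⟩))))
      have h6 : U ⊔ span K (d '' s') ≤ U ⊔ span K (d '' (insert a s' : Finset ι)) :=
        sup_le_sup_left (span_mono (Set.image_mono (by simp))) _
      refine ⟨insert a s', by have := card_insert_le a s'; omega,
        forall_mem_insert _ _ _ |>.2 ⟨mem_sup_right (subset_span ⟨a, by simp, rfl⟩),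
          fun i hi => h6 (h2 i hi)⟩⟩

/-- The algebra generated by `d`, as a subspace. -/
noncomputable def Al (K : Type) [Field K] [Algebra K R] (d : Fin S → R) : Submodule K R :=
  Subalgebra.toSubmodule (Algebra.adjoin K (Set.range d))

theorem Al.gen (d : Fin S → R) (i : Fin S) : d i ∈ Al K d := Algebra.subset_adjoin ⟨i, rfl⟩

theorem Al.mul {d : Fin S → R} {a b : R} (ha : a ∈ Al K d) (hb : b ∈ Al K d) : a * b ∈ Al K d :=
  (Algebra.adjoin K (Set.range d)).mul_mem ha hb

theorem Al.const (d : Fin S → R) (a : K) : algebraMap K R a ∈ Al K d :=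
  (Algebra.adjoin K (Set.range d)).algebraMap_mem a

theorem Al.le {d d' : Fin S → R} (h : ∀ i, d i ∈ Al K d') : Al K d ≤ Al K d' :=
  Algebra.adjoin_le (S := Algebra.adjoin K (Set.range d')) (Set.range_subset_iff.2 h)

theorem dim_mul (ht : t ^ (j + 1) = 0) {d : Fin S → R} (hd : ∀ i, t ∣ d i) {ι : Type} [Fintype ι]
    {z : ι → R} (o : ι → ℕ) (hz : ∀ i, t ^ o i ∣ z i) :
    finrank K ↥(span K (Set.range z) * Al K d) ≤ ∑ i, mu S j (o i) := by
  have := fun i => (card_mu S j i).1
  have := Fintype.ofFinite (Σ i, {e : Fin S →₀ ℕ // e.degree + o i ≤ j})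
  have h1 : Al K d ≤ span K (Set.range fun m : Fin S →₀ ℕ => ∏ i ∈ m.support, d i ^ m i) := by
    intro x hx
    rw [Al, Algebra.adjoin_range_eq_range_aeval] at hx
    obtain ⟨Φ, rfl⟩ := hx
    change aeval d Φ ∈ _
    rw [aeval_def, eval₂_eq]
    exact sum_mem fun m _ => Algebra.smul_def (coeff m Φ) (_ : R) ▸
      smul_mem _ _ (subset_span ⟨m, rfl⟩)
  refine (Submodule.finrank_mono ((mul_le_mul_right h1 _).trans ?_)).trans
    ((finrank_range_le_card (R := K) fun p : Σ i, {e : Fin S →₀ ℕ // e.degree + o i ≤ j} =>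
      z p.1 * ∏ i ∈ p.2.1.support, d i ^ p.2.1 i).trans ?_)
  · rw [span_mul_span, span_le]
    rintro _ ⟨_, ⟨i, rfl⟩, _, ⟨m, rfl⟩, rfl⟩
    by_cases hm : m.degree + o i ≤ j
    · exact subset_span ⟨⟨i, m, hm⟩, rfl⟩
    · have h2 : t ^ m.degree ∣ ∏ i ∈ m.support, d i ^ m i := by
        rw [Finsupp.degree_apply, ← prod_pow_eq_pow_sum]
        exact prod_dvd_prod_of_dvd _ _ fun i _ => pow_dvd_pow_of_dvd (hd i) _
      have h3 := mul_dvd_mul (hz i) h2
      rw [← pow_add] at h3
      simp only [zero_dvd_iff.1 (ht ▸ (pow_dvd_pow t (by omega)).trans h3)]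
      exact zero_mem _
  · rw [← Nat.card_eq_fintype_card, Nat.card_sigma]
    exact sum_le_sum fun i _ => (card_mu S j _).2

/-- The linear parts of `d`, together with the multiples of `t ^ 2`. -/
noncomputable def Lp (K : Type) [Field K] [Algebra K R] (t : R) (d : Fin S → R) : Submodule K R :=
  (Ideal.span {t ^ 2}).restrictScalars K ⊔ span K (Set.range d)

theorem mem_Lp (ht : t ^ (j + 1) = 0) {d : Fin S → R} (hd : ∀ i, t ∣ d i) {x : R}
    (hx : x ∈ Al K d) (h : t ∣ x) : x ∈ Lp K t d := by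
  have h0 : ∀ y ∈ Lp K t d, t ∣ y := fun y hy => by
    refine Ideal.mem_span_singleton.1 ((sup_le ?_ (span_le.2 ?_) :
      Lp K t d ≤ (Ideal.span {t}).restrictScalars K) hy)
    · exact fun y hy => Ideal.mem_span_singleton.2
        ((dvd_pow_self t two_ne_zero).trans (Ideal.mem_span_singleton.1 hy))
    · rintro _ ⟨i, rfl⟩
      exact Ideal.mem_span_singleton.2 (hd i)
  have h1 : ∃ a : K, x - algebraMap K R a ∈ Lp K t d := by
    clear h
    induction hx using Algebra.adjoin_induction with
    | mem x hx => exact ⟨0, by rw [map_zero, sub_zero]; exact mem_sup_right (subset_span hx)⟩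
    | algebraMap a => exact ⟨a, by simp⟩
    | add x y _ _ hx hy =>
      obtain ⟨a, ha⟩ := hx
      obtain ⟨b, hb⟩ := hy
      exact ⟨a + b, by rw [map_add, add_sub_add_comm]; exact add_mem ha hb⟩
    | mul x y _ _ hx hy =>
      obtain ⟨a, ha⟩ := hx
      obtain ⟨b, hb⟩ := hy
      refine ⟨a * b, ?_⟩
      rw [show x * y - algebraMap K R (a * b) = (x - algebraMap K R a) * (y - algebraMap K R b) +
        (a • (y - algebraMap K R b) + b • (x - algebraMap K R a)) by
          simp only [Algebra.smul_def, map_mul]; ring]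
      exact add_mem (mem_sup_left (Ideal.mem_span_singleton.2 (pow_two t ▸
        mul_dvd_mul (h0 _ ha) (h0 _ hb)))) (add_mem (smul_mem _ _ hb) (smul_mem _ _ ha))
  obtain ⟨a, ha⟩ := h1
  by_cases e : a = 0
  · simpa [e] using ha
  · have h2 : t ∣ algebraMap K R a := by simpa using dvd_sub h (h0 _ ha)
    have h3 := (isUnit_of_dvd_unit h2 ((IsUnit.mk0 a e).map _)).pow (j + 1)
    rw [ht, isUnit_zero_iff] at h3
    rw [← mul_one x, ← h3, mul_zero]
    exact zero_mem _

theorem dim_step (ht : t ^ (j + 1) = 0) {d d' : Fin S → R} (hd : ∀ i, t ∣ d i)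
    (hd' : ∀ i, t ∣ d' i) (h : ∀ i, d i ∈ Al K d') {Λ : Fin S → R}
    (hΛ : ∀ k, ∃ a : K, t ∣ Λ k - algebraMap K R a) {W : Submodule K R}
    (hW : span K (Set.range Λ) * Al K d ≤ W) :
    finrank K ↥(W ⊔ span K (Set.range Λ) * Al K d') + 2 * mu S j 1 * finrank K (Lp K t d) ≤
      finrank K W + 2 * mu S j 1 * (finrank K (Lp K t d') + 1) := by
  obtain ⟨s, h1, h2⟩ := exists_compl (Lp K t d) d' univ
  have h3 : Lp K t d ⊔ span K (d' '' (univ : Finset (Fin S))) ≤ Lp K t d' :=
    sup_le (sup_le le_sup_left (span_le.2 (Set.range_subset_iff.2 fun i =>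
      mem_Lp ht hd' (h i) (hd i)))) (le_sup_of_le_right (by simp))
  have h4 : ∀ i, ∃ x, t ^ 2 ∣ x ∧ x ∈ Al K d' ∧ ∃ y ∈ Al K d, ∃ z ∈ span K (d' '' s),
      x + y + z = d' i := fun i => by
    obtain ⟨_, hu, z, hz, e⟩ := Submodule.mem_sup.1 (h2 i (mem_univ i))
    obtain ⟨x, hx, y, hy, rfl⟩ := Submodule.mem_sup.1 hu
    have hy' : y ∈ Al K d := span_le.2 (Set.range_subset_iff.2 (Al.gen d)) hy
    refine ⟨x, Ideal.mem_span_singleton.1 hx, ?_, y, hy', z, hz, e⟩
    rw [show x = d' i - y - z by rw [← e]; ring]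
    exact sub_mem (sub_mem (Al.gen _ _) (Al.le h hy'))
      (span_le.2 (Set.image_subset_iff.2 fun i _ => Al.gen d' i) hz)
  choose x hx hx' hxe using h4
  choose a ha using hΛ
  let g : s ⊕ Fin S → R := Sum.elim (fun i => d' i) x
  let l : Option (Fin S) → R := fun k => k.elim 1 fun k => Λ k - algebraMap K R (a k)
  have hg : span K (Set.range g) * Al K d' ≤ Al K d' := Submodule.mul_le.2 fun u hu w hw =>
    Al.mul (span_le.2 (Set.range_subset_iff.2 (by
      rintro (i | i)
      exacts [Al.gen _ _, hx' i])) hu) hw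
  have h5 : Al K d' ≤ Al K d ⊔ span K (Set.range g) * Al K d' := by
    have e1 : ∀ u ∈ span K (Set.range g) * Al K d', ∀ w ∈ Al K d',
        u * w ∈ span K (Set.range g) * Al K d' := fun u hu w hw =>
      Submodule.mul_induction_on hu (fun p hp q hq => mul_assoc p q w ▸
        Submodule.mul_mem_mul hp (Al.mul hq hw)) fun p q hp hq => add_mul p q w ▸ add_mem hp hq
    have e2 : ∀ u ∈ span K (Set.range g), u ∈ span K (Set.range g) * Al K d' := fun u hu =>
      mul_one u ▸ Submodule.mul_mem_mul hu (map_one (algebraMap K R) ▸ Al.const d' 1)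
    intro y hy
    induction hy using Algebra.adjoin_induction with
    | mem y hy =>
      obtain ⟨i, rfl⟩ := hy
      obtain ⟨y, hy, z, hz, e⟩ := hxe i
      rw [← e]
      refine add_mem (add_mem (mem_sup_right (e2 _ (subset_span ⟨.inr i, rfl⟩))) (mem_sup_left hy))
        (mem_sup_right (e2 _ (span_mono ?_ hz)))
      rintro _ ⟨i, hi, rfl⟩
      exact ⟨.inl ⟨i, hi⟩, rfl⟩
    | algebraMap a => exact mem_sup_left (Al.const d a)
    | add x y _ _ hx hy => exact add_mem hx hy
    | mul x y _ hy' hx hy =>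
      obtain ⟨p, hp, q, hq, rfl⟩ := Submodule.mem_sup.1 hx
      obtain ⟨p', hp', q', hq', e⟩ := Submodule.mem_sup.1 hy
      rw [add_mul, show p * y = p * p' + q' * p by rw [← e]; ring]
      exact add_mem (add_mem (mem_sup_left (Al.mul hp hp')) (mem_sup_right (e1 _ hq' _ (Al.le h hp))))
        (mem_sup_right (e1 _ hq _ hy'))
  have h6 : span K (Set.range Λ) ≤ span K (Set.range l) := span_le.2 (by
    rintro _ ⟨k, rfl⟩
    rw [show Λ k = l (some k) + a k • l none by simp [l, Algebra.smul_def]]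
    exact add_mem (subset_span ⟨_, rfl⟩) (smul_mem _ _ (subset_span ⟨_, rfl⟩)))
  have h7 : W ⊔ span K (Set.range Λ) * Al K d' ≤ W ⊔ span K (Set.range
      fun p : Option (Fin S) × (s ⊕ Fin S) => l p.1 * g p.2) * Al K d' := by
    refine sup_le le_sup_left ((mul_le_mul_right h5 _).trans ?_)
    rw [Submodule.mul_sup, ← mul_assoc]
    refine sup_le_sup hW (mul_le_mul_left ((mul_le_mul_left h6 _).trans ?_) _)
    rw [span_mul_span]
    refine span_mono ?_
    rintro _ ⟨_, ⟨k, rfl⟩, _, ⟨i, rfl⟩, rfl⟩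
    exact ⟨(k, i), rfl⟩
  have h8 := dim_mul (K := K) ht hd' (z := fun p : Option (Fin S) × (s ⊕ Fin S) => l p.1 * g p.2)
    (fun p => p.1.elim 0 (fun _ => 1) + Sum.elim (fun _ => 1) (fun _ => 2) p.2) (by
      rintro ⟨k, i⟩
      rw [pow_add]
      refine mul_dvd_mul ?_ ?_
      · cases k
        · simp
        · simpa [l] using ha _
      · cases i
        · simpa [g] using hd' _
        · simpa [g] using hx _)
  simp only [Fintype.sum_prod_type, Fintype.sum_option, Fintype.sum_sum_type, Option.elim_none,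
    Option.elim_some, Sum.elim_inl, Sum.elim_inr, sum_const, card_univ, Fintype.card_coe,
    Fintype.card_fin, smul_eq_mul, zero_add, Nat.reduceAdd] at h8
  have h9 := (Submodule.finrank_mono h7).trans (finrank_add_le_finrank_add_finrank _ _)
  have h10 := h1.trans (Submodule.finrank_mono h3)
  have m1 : S * mu S j 2 ≤ mu S j 1 := le_trans (Nat.mul_le_mul_right _ (by omega)) (mu_succ S j 1)
  have m2 : S * mu S j 3 ≤ mu S j 2 := le_trans (Nat.mul_le_mul_right _ (by omega)) (mu_succ S j 2)
  nlinarith [Nat.mul_le_mul_left (2 * mu S j 1) h10, Nat.mul_le_mul_left S m2,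
    Nat.mul_le_mul_left s.card m1]

end Pool.Agent.MP_57f271_lc.H26
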