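import Pool.Agent.MP_57f271_lc.H26.Lin

/-!
Packing a generic system into the standard format with exact degrees.
-/

set_option autoImplicit false

namespace Pool.Agent.MP_57f271_lc.H26

open MvPolynomial Finset

variable {τ V V' : Type}

/-- Every coefficient is a constant or a variable plus a constant. -/
def Aff (F : MvPolynomial V (MvPolynomial τ ℂ)) : Prop :=
  ∀ e, ∃ (o : Option τ) (c : ℂ), coeff e F = o.elim 0 X + C c

theorem Aff.add {F : MvPolynomial V (MvPolynomial τ ℂ)} (h : Aff F) (q : MvPolynomial V ℂ) :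
    Aff (F + map C q) := fun e => by
  obtain ⟨o, c, h⟩ := h e
  exact ⟨o, c + coeff e q, by rw [coeff_add, coeff_map, h, map_add, add_assoc]⟩

theorem aff_zero : Aff (0 : MvPolynomial V (MvPolynomial τ ℂ)) := fun _ => ⟨none, 0, by simp⟩

theorem Aff.rename {F : MvPolynomial V (MvPolynomial τ ℂ)} (h : Aff F) {φ : V → V'}
    (hφ : Function.Injective φ) : Aff (rename φ F) := fun e => by
  by_cases he : ∃ u : V →₀ ℕ, u.mapDomain φ = e
  · obtain ⟨u, rfl⟩ := he
    rw [coeff_rename_mapDomain _ hφ]
    exact h u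
  · exact ⟨none, 0, by rw [coeff_rename_eq_zero _ _ _ fun u hu => (he ⟨u, hu⟩).elim]; simp⟩

theorem aff_sum {ι : Type} [Fintype ι] {mon : ι → V →₀ ℕ} (h : Function.Injective mon)
    (x : ι → τ) : Aff (∑ i, monomial (mon i) (X (x i) : MvPolynomial τ ℂ)) := fun e => by
  classical
  simp only [coeff_sum, coeff_monomial]
  by_cases he : ∃ i, mon i = e
  · obtain ⟨i, rfl⟩ := he
    exact ⟨some (x i), 0, by simp [h.eq_iff]⟩
  · exact ⟨none, 0, by rw [sum_eq_zero fun i _ => if_neg fun hi => he ⟨i, hi⟩]; simp⟩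

/-- The exponent of the product of the variables `φ (a, g a)`. -/
noncomputable def mon {m v : ℕ} (φ : Fin m × Fin v → V) (g : Fin m → Fin v) : V →₀ ℕ :=
  ∑ a, Finsupp.single (φ (a, g a)) 1

theorem mon_inj {m v : ℕ} {φ : Fin m × Fin v → V} (h : Function.Injective φ) :
    Function.Injective (mon φ) := fun g g' e => funext fun a => by
  classical
  by_contra hne
  have := DFunLike.congr_fun e (φ (a, g a))
  simp only [mon, Finsupp.finsetSum_apply, Finsupp.single_apply, h.eq_iff, Prod.mk.injEq] at this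
  rw [sum_eq_single a (fun b _ hb => if_neg fun e => hb e.1) (by simp),
    sum_eq_zero fun b _ => if_neg fun e => hne (by rw [← e.2, e.1])] at this
  simp at this

theorem monomial_mon {R : Type} [CommRing R] {m v : ℕ} (φ : Fin m × Fin v → V) (g : Fin m → Fin v)
    (c : R) : monomial (mon φ g) c = C c * ∏ a, X (φ (a, g a)) := by
  simp only [X]
  rw [← monomial_sum_one, C_mul_monomial, mul_one, mon]

theorem deg_mon {R : Type} [CommRing R] {m v : ℕ} (φ : Fin m × Fin v → V)
    (c : (Fin m → Fin v) → R) : (∑ g, monomial (mon φ g) (c g)).totalDegree ≤ m := by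
  refine totalDegree_finsetSum_le fun g _ => (totalDegree_monomial_le _ _).trans ?_
  rw [mon, ← Finsupp.sum_finsetSum_index (by simp) (by simp)]
  simp

theorem pack {E : Type} [Fintype V] [Fintype E] (d : E → ℕ) (hd : ∀ e, 1 ≤ d e)
    (G : E → MvPolynomial V (MvPolynomial τ ℂ)) (e₀ : E) (h0 : G e₀ = 0)
    (hdeg : ∀ e, (G e).totalDegree ≤ d e) (haff : ∀ e, Aff (G e)) :
    ∃ F : Fin (Fintype.card E) → MvPolynomial (Fin (Fintype.card V + 1)) (MvPolynomial τ ℂ),
      (∀ i, Aff (F i)) ∧ ∀ ψ : MvPolynomial τ ℂ →+* ℂ,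
        (∀ i, (map ψ (F i)).totalDegree = d ((Fintype.equivFin E).symm i)) ∧
        ((∃ y, ∀ i, eval y (map ψ (F i)) = 0) ↔ ∃ y, ∀ e, eval y (map ψ (G e)) = 0) := by
  let φ : V → Fin (Fintype.card V + 1) := Fin.succ ∘ Fintype.equivFin V
  have hφ : Function.Injective φ := (Fin.succ_injective _).comp (Fintype.equivFin V).injective
  refine ⟨fun i => rename φ (G ((Fintype.equivFin E).symm i)) +
    X 0 ^ d ((Fintype.equivFin E).symm i), fun i => ?_, fun ψ => ⟨fun i => ?_, ?_⟩⟩
  · simpa using ((haff ((Fintype.equivFin E).symm i)).rename hφ).add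
      (X 0 ^ d ((Fintype.equivFin E).symm i))
  · simp only [map_add, map_pow, map_X, map_rename]
    generalize (Fintype.equivFin E).symm i = e
    refine le_antisymm ((totalDegree_add _ _).trans (max_le ((totalDegree_rename_le _ _).trans
      (le_trans (sup_mono (support_map_subset _ _)) (hdeg e))) (by simp))) ?_
    have h : Finsupp.single 0 (d e) ∈ (rename φ (map ψ (G e)) + X 0 ^ d e).support := by
      rw [mem_support_iff, coeff_add, coeff_rename_eq_zero, coeff_X_pow, if_pos rfl]
      · simp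
      · intro u hu
        have := DFunLike.congr_fun hu 0
        rw [Finsupp.mapDomain_of_notMem_range _ _ (by simp [φ]), Finsupp.single_eq_same] at this
        have := hd e
        omega
    simpa using le_totalDegree h
  · simp only [map_add, map_pow, map_X, map_rename, eval_rename, eval_X]
    refine ⟨fun ⟨y, hy⟩ => ⟨y ∘ φ, fun e => ?_⟩, fun ⟨y, hy⟩ =>
      ⟨Fin.cons 0 (y ∘ (Fintype.equivFin V).symm), fun i => ?_⟩⟩
    · have h1 := hy (Fintype.equivFin E e₀)
      have h2 := hy (Fintype.equivFin E e)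
      simp only [Equiv.symm_apply_apply, h0, map_zero, zero_add] at h1 h2
      rwa [pow_eq_zero_iff (by have := hd e₀; omega) |>.1 h1, zero_pow (by have := hd e; omega),
        add_zero] at h2
    · rw [show (Fin.cons 0 (y ∘ (Fintype.equivFin V).symm) : _ → ℂ) ∘ φ = y from
        funext fun u => by simp [φ], hy, Fin.cons_zero,
        zero_pow (by have := hd ((Fintype.equivFin E).symm i); omega), add_zero]

theorem choose_bounds {j v n : ℕ} (h1 : j * v ≤ n + 1) (h2 : n + j ≤ 3 * j * v) :
    v ^ j ≤ (n + j).choose j ∧ (n + j).choose j ≤ (9 * v) ^ j := by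
  have h3 : j ^ j ≤ 3 ^ j * j.factorial := by
    have h := Real.pow_div_factorial_le_exp (j : ℝ) (by positivity) j
    rw [div_le_iff₀ (by positivity), ← mul_one (j : ℝ), Real.exp_nat_mul, mul_one] at h
    exact_mod_cast h.trans (mul_le_mul_of_nonneg_right
      (pow_le_pow_left₀ (Real.exp_pos 1).le Real.exp_one_lt_three.le j) (by positivity))
  refine ⟨Nat.le_of_mul_le_mul_left ?_ j.factorial_pos, Nat.le_of_mul_le_mul_left ?_ j.factorial_pos⟩
  · rw [← Nat.ascFactorial_eq_factorial_mul_choose]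
    refine le_trans ?_ ((Nat.pow_le_pow_left h1 j).trans (Nat.pow_succ_le_ascFactorial _ _))
    rw [mul_pow]
    exact Nat.mul_le_mul_right _ (Nat.factorial_le_pow j)
  · rw [← Nat.ascFactorial_eq_factorial_mul_choose]
    refine ((Nat.ascFactorial_le_pow_add _ _).trans (Nat.pow_le_pow_left h2 j)).trans ?_
    calc (3 * j * v) ^ j = j ^ j * (3 * v) ^ j := by rw [← mul_pow]; ring_nf
      _ ≤ 3 ^ j * j.factorial * (3 * v) ^ j := Nat.mul_le_mul_right _ h3
      _ = _ := by rw [show 9 * v = 3 * (3 * v) by ring, mul_pow 3 (3 * v)]; ring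

end Pool.Agent.MP_57f271_lc.H26
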