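import Pool.Agent.MP_57f271_lc.H26.Core
import Pool.Agent.MP_57f271_lc.H26.Pack

/-!
The hard format and the time-space tradeoff.
-/

set_option autoImplicit false

namespace Pool.Agent.MP_57f271_lc.H26

open Pool.Agent.MP_57f271_lc.H18 MvPolynomial Finset Classical

abbrev VV (m v : ℕ) : Type := (Fin m × Fin v) ⊕ Option (Fin (m + 1) × Fin v)

abbrev EE (m v : ℕ) : Type := Option (Option (VV m v))

noncomputable def GG (m v : ℕ) : EE m v → MvPolynomial (VV m v) (AA (m + 1) v (Fin m → Fin v))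
  | none => ∑ α, monomial (mon (fun q => .inr (some q)) α) (X (.inl α)) + map C (-X (.inr none))
  | some none => 0
  | some (some (.inl q)) => 0 + map C (X (.inl q) - 1)
  | some (some (.inr x)) => ∑ g, monomial (mon .inl g) (X (.inr (g, x))) + map C (-X (.inr x))

def dd (m v : ℕ) (e : EE m v) : ℕ := e.elim (m + 1) fun _ => m

theorem GG_aff (m v : ℕ) (e : EE m v) : Aff (GG m v e) := by
  rcases e with _ | _ | q | x
  · exact (aff_sum (mon_inj fun a b h => by simpa using h) _).add _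
  · exact aff_zero
  · exact aff_zero.add _
  · exact (aff_sum (mon_inj Sum.inl_injective) _).add _

theorem GG_deg {m : ℕ} (hm : 1 ≤ m) (v : ℕ) (e : EE m v) : (GG m v e).totalDegree ≤ dd m v e := by
  rcases e with _ | _ | q | x <;> simp only [GG, dd, Option.elim_none, Option.elim_some]
  · exact (totalDegree_add _ _).trans (max_le (deg_mon _ _) (by simp))
  · simp
  · simp only [zero_add, map_sub, map_X, map_one]
    exact (totalDegree_sub _ _).trans (max_le (by simpa using hm) (by simp))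
  · exact (totalDegree_add _ _).trans (max_le (deg_mon _ _) (by simpa using hm))

theorem GG_feas (m v : ℕ) (z : Vr (m + 1) v (Fin m → Fin v) → ℂ) :
    (∃ y, ∀ e, eval y (map (eval z) (GG m v e)) = 0) ↔ eval z (ff (m + 1) v (Fin m → Fin v)) = 0 := by
  simp only [ff, zz, map_sub, map_sum, map_mul, map_prod, eval_X]
  constructor
  · rintro ⟨y, hy⟩
    have h1 : ∀ q, y (.inl q) = 1 := fun q => by
      simpa [GG, sub_eq_zero] using hy (some (some (.inl q)))
    have h4 : ∀ x, y (.inr x) = ∑ g, z (.inr (g, x)) := fun x => by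
      have := hy (some (some (.inr x)))
      simp only [GG, monomial_mon, map_add, map_sum, map_mul, map_prod, map_neg, map_X, map_C,
        eval_X, eval_C, h1, prod_const_one, mul_one] at this
      linear_combination -this
    have := hy none
    simp only [GG, monomial_mon, map_add, map_sum, map_mul, map_prod, map_neg, map_X, map_C,
      eval_X, eval_C, h4] at this
    linear_combination -this
  · intro hg
    refine ⟨Sum.elim (fun _ => 1) fun x => ∑ g, z (.inr (g, x)), ?_⟩
    rintro (_ | _ | q | x)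
    · simp only [GG, monomial_mon, map_add, map_sum, map_mul, map_prod, map_neg, map_X, map_C,
        eval_X, eval_C, Sum.elim_inr]
      linear_combination -hg
    · simp [GG]
    · simp [GG]
    · simp [GG, monomial_mon]

theorem size_bounds {m v n : ℕ} (hv : 2 ≤ v) (hn : n = (2 * m + 1) * v + 2) :
    v ^ (m + 1) ≤ (n + (m + 1)).choose (m + 1) + n * (n + m).choose m ∧
      (n + (m + 1)).choose (m + 1) + n * (n + m).choose m ≤ (18 * v) ^ (m + 1) := by
  obtain ⟨h1, h2⟩ := choose_bounds (j := m + 1) (v := v) (n := n) (by nlinarith) (by nlinarith)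
  refine ⟨h1.trans (Nat.le_add_right _ _), ?_⟩
  have h3 := Nat.add_one_mul_choose_eq (n + m) m
  have h4 : m + 1 < 2 ^ (m + 1) := Nat.lt_two_pow_self
  calc _ ≤ (n + (m + 1)).choose (m + 1) + (n + m + 1) * (n + m).choose m := by gcongr; omega
    _ = (m + 1 + 1) * (n + (m + 1)).choose (m + 1) := by rw [h3, add_assoc n m 1]; ring
    _ ≤ 2 ^ (m + 1) * (9 * v) ^ (m + 1) := Nat.mul_le_mul h4 h2
    _ = _ := by rw [← mul_pow]; ring_nf

theorem numeric {m v N S R : ℕ} (hm : 1 ≤ m) (h2 : N ≤ (18 * v) ^ (m + 1))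
    (hS : (36 * (S + 1)) ^ (m + 1) ≤ N)
    (h : v ^ m * v ^ (m + 1) ≤ v ^ m * (S + 1) ^ (m + 1) + R * (4 * (S + 1) ^ m)) :
    (N : ℝ) ^ (2 - 1 / (m + 1 : ℕ) : ℝ) / (324 ^ (m + 1) * (S + 1) ^ m) ≤ R := by
  have h3 : 2 * (S + 1) ≤ v := by
    have := (Nat.pow_le_pow_iff_left (by omega)).1 (hS.trans h2)
    omega
  have h4 : 4 * (S + 1) ^ (m + 1) ≤ v ^ (m + 1) := by
    refine le_trans ?_ (Nat.pow_le_pow_left h3 _)
    rw [mul_pow]
    exact Nat.mul_le_mul_right _ (Nat.pow_le_pow_right (n := 2) two_pos (by omega : 2 ≤ m + 1))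
  have h5 : v ^ (2 * m + 1) ≤ 18 * (R * (S + 1) ^ m) := by
    rw [show 2 * m + 1 = m + (m + 1) by ring, pow_add]
    have := Nat.mul_le_mul_left (v ^ m) h4
    rw [mul_left_comm] at this h
    omega
  have h6 : (N : ℝ) ^ (2 - 1 / (m + 1 : ℕ) : ℝ) ≤ (18 * v) ^ (2 * m + 1) := by
    have e1 : (N : ℝ) ≤ (18 * v) ^ (m + 1) := by exact_mod_cast h2
    have e2 : (2 - 1 / (m + 1 : ℕ) : ℝ) = (2 * m + 1) / (m + 1) := by
      push_cast
      field_simp
      ring
    calc _ ≤ ((18 * v : ℝ) ^ (m + 1)) ^ ((2 * m + 1) / (m + 1) : ℝ) := by rw [e2]; gcongr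
      _ = _ := by
        rw [← Real.rpow_natCast, ← Real.rpow_mul (by positivity), ← Real.rpow_natCast]
        congr 1
        push_cast
        field_simp
  rw [div_le_iff₀ (by positivity)]
  calc _ ≤ (18 : ℝ) ^ (2 * m + 1) * v ^ (2 * m + 1) := by rwa [← mul_pow]
    _ ≤ 18 ^ (2 * m + 1) * (18 * (R * (S + 1) ^ m)) := by gcongr; exact_mod_cast h5
    _ = _ := by rw [show (324 : ℝ) = 18 ^ 2 by norm_num, ← pow_mul]; ring

theorem main (j N₀ : ℕ) (hj : 2 ≤ j) : ∃ (n k : ℕ) (d : Fin k → ℕ),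
    N₀ ≤ Nat.card (Slot n k d) ∧ ∀ S : ℕ, (36 * (S + 1)) ^ j ≤ Nat.card (Slot n k d) →
      Hard n k d S ((Nat.card (Slot n k d) : ℝ) ^ (2 - 1 / j : ℝ) /
        (324 ^ j * (S + 1) ^ (j - 1))) := by
  obtain ⟨m, rfl⟩ : ∃ m, j = m + 1 := ⟨j - 1, by omega⟩
  obtain ⟨v, hv, hv'⟩ : ∃ v, 2 ≤ v ∧ N₀ ≤ v := ⟨N₀ + 2, by omega, by omega⟩
  have hm : 1 ≤ m := by omega
  obtain ⟨F, hF, hψ⟩ := pack (dd m v) (fun e => by cases e <;> simp [dd, hm]) (GG m v)
    (some none) rfl (GG_deg hm v) (GG_aff m v)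
  refine ⟨Fintype.card (VV m v) + 1, Fintype.card (EE m v),
    fun i => dd m v ((Fintype.equivFin _).symm i), ?_⟩
  have hN : Nat.card (Slot (Fintype.card (VV m v) + 1) (Fintype.card (EE m v))
      fun i => dd m v ((Fintype.equivFin _).symm i)) =
      (Fintype.card (VV m v) + 1 + (m + 1)).choose (m + 1) +
      (Fintype.card (VV m v) + 1) * (Fintype.card (VV m v) + 1 + m).choose m := by
    have := fun d => finite_mon (Fintype.card (VV m v) + 1) d
    refine Nat.card_sigma.trans ?_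
    simp only [card_mon]
    rw [Equiv.sum_comp (Fintype.equivFin (EE m v)).symm
      fun e => (Fintype.card (VV m v) + 1 + dd m v e).choose (dd m v e), Fintype.sum_option]
    simp only [dd, Option.elim_none, Option.elim_some, sum_const, card_univ, smul_eq_mul,
      Fintype.card_option]
  obtain ⟨h1, h2⟩ := size_bounds (m := m) (n := Fintype.card (VV m v) + 1) hv (by
    simp only [Fintype.card_sum, Fintype.card_option, Fintype.card_prod, Fintype.card_fin]
    ring)
  rw [← hN] at h1 h2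
  refine ⟨hv'.trans ((Nat.le_self_pow (by omega) v).trans h1), fun S hS Ω _ M => ?_⟩
  choose lab cst hl using hF
  have hc : ∀ z, coeffs (fun i => dd m v ((Fintype.equivFin _).symm i))
      (fun i => map (eval z) (F i)) = eval z ∘ fun s => coeff s.2.1 (F s.1) :=
    fun z => funext fun s => coeff_map _ _ _
  obtain ⟨z, y, hz, hy, h⟩ := core (j := m + 1) (v := v) (Γ := Fin m → Fin v)
    (gen := fun s : Slot _ _ _ => coeff s.2.1 (F s.1)) (lab := fun s => lab s.1 s.2.1)
    (fun _ => ⟨0, by omega⟩) (fun s => ⟨_, hl s.1 s.2.1⟩) M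
  refine ⟨fun i => map (eval z) (F i), fun i => map (eval y) (F i), funext (hψ _).1,
    funext (hψ _).1, fun h => hz ((GG_feas m v z).1 ((hψ _).2.1 h)),
    (hψ _).2.2 ((GG_feas m v y).2 hy), fun ω T => ?_⟩
  rw [hc, hc]
  refine (h ω T).imp_right fun h => ⟨numeric hm h2 hS ?_, numeric hm h2 hS ?_⟩
  · simpa [mu] using h z (.inl rfl)
  · simpa [mu] using h y (.inr rfl)

end Pool.Agent.MP_57f271_lc.H26
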